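import Pool.Agent.K4H23.NZ.Spec

set_option autoImplicit false

open Finset Pointwise

namespace Pool.Agent.K4H23.NZ

theorem four38 {G : ℝ → ℝ} (hG : ConcaveOn ℝ (Set.Ici 0) G) {a b x : ℝ} (ha : 0 ≤ a) (hax : a ≤ x)
    (hxb : x ≤ b) : G a + G b ≤ G x + G (a + b - x) := by
  rcases eq_or_lt_of_le (hax.trans hxb) with h | h
  · have h1 : x = a := by linarith
    have h2 : a + b - x = b := by linarith
    rw [h2, h1]
  · have hba : 0 < b - a := by linarith
    set θ : ℝ := (x - a) / (b - a) with hθ
    have h0 : 0 ≤ θ := div_nonneg (by linarith) hba.le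
    have h1 : θ ≤ 1 := by rw [hθ, div_le_one hba]; linarith
    have hx : θ * (b - a) = x - a := by rw [hθ]; field_simp
    have ha' : a ∈ Set.Ici (0 : ℝ) := ha
    have hb' : b ∈ Set.Ici (0 : ℝ) := le_trans ha h.le
    have e1 := hG.2 ha' hb' (show 0 ≤ 1 - θ by linarith) h0 (by ring)
    have e2 := hG.2 ha' hb' h0 (show 0 ≤ 1 - θ by linarith) (by ring)
    simp only [smul_eq_mul] at e1 e2
    have k1 : (1 - θ) * a + θ * b = x := by linear_combination hx
    have k2 : θ * a + (1 - θ) * b = a + b - x := by linear_combination -hx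
    rw [k1] at e1
    rw [k2] at e2
    linarith

theorem c2aux38 {ι : Type*} {G : ℝ → ℝ} (hG : ConcaveOn ℝ (Set.Ici 0) G) (v : ι → ℝ) {u : ℝ}
    (s : Finset ι) : (∀ i ∈ s, 0 < v i ∧ v i ≤ u) → ∀ (k : ℕ) (w : ℝ), 0 < u → 0 ≤ w → w < u →
      ∑ i ∈ s, v i = k * u + w →
      k * G u + G w + ((s.card : ℝ) - k - 1) * G 0 ≤ ∑ i ∈ s, G (v i) := by
  classical
  induction s using Finset.induction_on with
  | empty =>
    intro _ k w hu hw hwu h
    rw [sum_empty] at h
    have hk : (k : ℝ) * u = 0 := by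
      have : 0 ≤ (k : ℝ) * u := by positivity
      linarith
    have hk0 : (k : ℝ) = 0 := by
      rcases mul_eq_zero.1 hk with h | h
      · exact h
      · exact absurd h hu.ne'
    have hw0 : w = 0 := by rw [hk] at h; linarith
    rw [hk0, hw0, sum_empty, card_empty]
    simp
  | insert a s ha ih =>
    intro hv k w hu hw hwu h
    rw [sum_insert ha] at h
    have hva := hv a (mem_insert_self a s)
    have hvs : ∀ i ∈ s, 0 < v i ∧ v i ≤ u := fun i hi => hv i (mem_insert_of_mem hi)
    rw [sum_insert ha, card_insert_of_notMem ha]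
    push_cast
    rcases le_or_gt (v a) w with h1 | h1
    · have e1 := ih hvs k (w - v a) hu (by linarith) (by linarith [hva.1]) (by linarith)
      have e2 := four38 hG le_rfl hva.1.le h1
      have e3 : 0 + w - v a = w - v a := by ring
      rw [e3] at e2
      linarith
    · have hs0 : 0 ≤ ∑ i ∈ s, v i := sum_nonneg fun i hi => (hvs i hi).1.le
      have hk1 : 1 ≤ k := by
        rcases Nat.eq_zero_or_pos k with h2 | h2
        · rw [h2] at h
          simp at h
          linarith
        · exact h2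
      obtain ⟨j, rfl⟩ := Nat.exists_eq_add_of_le' hk1
      push_cast at h ⊢
      have e1 := ih hvs j (u + w - v a) hu (by linarith [hva.2]) (by linarith) (by linarith)
      have e2 := four38 hG hw h1.le hva.2
      have e3 : w + u - v a = u + w - v a := by ring
      rw [e3] at e2
      linarith

theorem c2 {ι : Type*} {G : ℝ → ℝ} (hG : ConcaveOn ℝ (Set.Ici 0) G) (h0 : 0 ≤ G 0) (s : Finset ι)
    (v : ι → ℝ) {u w : ℝ} (hu : 0 < u) (hv : ∀ i ∈ s, 0 < v i ∧ v i ≤ u) (k : ℕ) (hw : 0 ≤ w)
    (hwu : w < u) (hsum : ∑ i ∈ s, v i = k * u + w) :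
    k * G u + (if 0 < w then G w else 0) ≤ ∑ i ∈ s, G (v i) := by
  have hmain := c2aux38 hG v s hv k w hu hw hwu hsum
  have hcount : (k : ℝ) * u + w ≤ s.card * u := by
    rw [← hsum, ← nsmul_eq_mul, ← sum_const]
    exact sum_le_sum fun i hi => (hv i hi).2
  split_ifs with h
  · have h1 : (k : ℝ) < s.card := by
      by_contra hc
      push Not at hc
      have := mul_le_mul_of_nonneg_right hc hu.le
      linarith
    have h2 : (k : ℝ) + 1 ≤ s.card := by
      have : k < s.card := by exact_mod_cast h1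
      exact_mod_cast this
    have h3 : 0 ≤ ((s.card : ℝ) - k - 1) * G 0 := mul_nonneg (by linarith) h0
    linarith
  · have hw0 : w = 0 := le_antisymm (not_lt.1 h) hw
    have h1 : (k : ℝ) ≤ s.card := by
      by_contra hc
      push Not at hc
      have := mul_lt_mul_of_pos_right hc hu
      linarith
    have h3 : 0 ≤ ((s.card : ℝ) - k) * G 0 := mul_nonneg (by linarith) h0
    rw [hw0] at hmain
    nlinarith

end Pool.Agent.K4H23.NZ
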