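import Pool.Agent.K4H23.NZ.Spec

set_option autoImplicit false

open Finset Pointwise

namespace Pool.Agent.K4H23.NZ

theorem slice_card38 {e : ℕ} (A : Finset (Fin (e + 1) → ℤ)) (t : ℤ) :
    (slice A t).card = (A.filter fun x => x 0 = t).card := by
  unfold slice
  refine card_image_of_injOn ?_
  intro x hx y hy h
  have hx0 : x 0 = t := (mem_filter.1 (mem_coe.1 hx)).2
  have hy0 : y 0 = t := (mem_filter.1 (mem_coe.1 hy)).2
  rw [← Fin.cons_self_tail x, ← Fin.cons_self_tail y, hx0, hy0]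
  exact congrArg _ h

theorem s3a {e : ℕ} (A : Finset (Fin (e + 1) → ℤ)) :
    ∑ t ∈ A.image (fun x => x 0), (slice A t).card = A.card := by
  rw [card_eq_sum_card_image (fun x : Fin (e + 1) → ℤ => x 0) A]
  exact sum_congr rfl fun t _ => slice_card38 A t

theorem s3b {e : ℕ} (A : Finset (Fin (e + 1) → ℤ)) (t : ℤ) : slice A t ⊆ A.image Fin.tail :=
  image_subset_image (filter_subset _ _)

theorem s3c {e : ℕ} {A : Finset (Fin (e + 1) → ℤ)} {t : ℤ} (ht : t ∈ A.image (fun x => x 0)) :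
    (slice A t).Nonempty := by
  obtain ⟨x, hx, hxt⟩ := mem_image.1 ht
  exact ⟨Fin.tail x, mem_image_of_mem _ (mem_filter.2 ⟨hx, hxt⟩)⟩

end Pool.Agent.K4H23.NZ
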