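import Mathlib
import Pool.Agent.Helper872.Sch.Base
set_option autoImplicit false
set_option linter.unusedSectionVars false
open scoped ENNReal InnerProductSpace Topology
open Module ContinuousLinearMap Pool.Agent.Helper872.Sch

namespace Pool.Agent.K4H38.Clark

/-- powers with a complex exponent, `0` at the base `0` -/
noncomputable def pw (c : ℝ) (w : ℂ) : ℂ :=
  if c = 0 then 0 else Complex.exp (w * (Real.log c : ℂ))

theorem norm_pw {c : ℝ} (hc : 0 < c) (w : ℂ) : ‖pw c w‖ = c ^ w.re := by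
  rw [pw, if_neg hc.ne', Complex.norm_exp, Real.rpow_def_of_pos hc]
  congr 1
  simp [mul_comm]

theorem pw_zero (w : ℂ) : pw 0 w = 0 := by simp [pw]

theorem norm_pw_one {c : ℝ} (hc : 0 ≤ c) {w : ℂ} (hw : w.re = 1) : ‖pw c w‖ = c := by
  rcases hc.eq_or_lt with h | h
  · rw [← h, pw_zero, norm_zero]
  · rw [norm_pw h, hw, Real.rpow_one]

theorem norm_pw_half {c : ℝ} (hc : 0 ≤ c) {w : ℂ} (hw : w.re = 1 / 2) : ‖pw c w‖ ^ 2 = c := by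
  rcases hc.eq_or_lt with h | h
  · rw [← h, pw_zero, norm_zero]; simp
  · rw [norm_pw h, hw, ← Real.rpow_natCast, ← Real.rpow_mul h.le]
    norm_num

theorem norm_pw_zero {c : ℝ} (hc : 0 ≤ c) {w : ℂ} (hw : w.re = 0) : ‖pw c w‖ ≤ 1 := by
  rcases hc.eq_or_lt with h | h
  · rw [← h, pw_zero, norm_zero]; exact zero_le_one
  · rw [norm_pw h, hw, Real.rpow_zero]

theorem norm_pw_le {c : ℝ} (hc : 0 ≤ c) {w : ℂ} (h0 : 0 ≤ w.re) (h1 : w.re ≤ 1) :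
    ‖pw c w‖ ≤ 1 + c := by
  rcases hc.eq_or_lt with h | h
  · rw [← h, pw_zero, norm_zero]; norm_num
  · rw [norm_pw h]
    calc c ^ w.re ≤ (1 + c) ^ w.re := Real.rpow_le_rpow h.le (by linarith) h0
      _ ≤ (1 + c) ^ (1 : ℝ) := Real.rpow_le_rpow_of_exponent_le (by linarith) h1
      _ = 1 + c := Real.rpow_one _

theorem pw_real {c : ℝ} (hc : 0 ≤ c) {r : ℝ} (hr : 0 < r) : pw c (r : ℂ) = ((c ^ r : ℝ) : ℂ) := by
  rcases hc.eq_or_lt with h | h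
  · rw [← h, pw_zero, Real.zero_rpow hr.ne']; simp
  · rw [pw, if_neg h.ne', Real.rpow_def_of_pos h, Complex.ofReal_exp]
    congr 1
    push_cast
    ring

theorem differentiable_pw (c : ℝ) {f : ℂ → ℂ} (hf : Differentiable ℂ f) :
    Differentiable ℂ (fun z => pw c (f z)) := by
  unfold pw
  by_cases h : c = 0
  · simp [h]
  · simp only [h, if_false]
    exact (hf.mul_const _).cexp

universe u
variable {H : Type u} [NormedAddCommGroup H] [InnerProductSpace ℂ H] [CompleteSpace H]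

/-- Cauchy–Schwarz with two Bessel systems -/
theorem cs_bessel {Λ : Type*} (R : Finset Λ) (x y : Λ → H)
    (hx : ∀ w : H, ∑ l ∈ R, ‖⟪x l, w⟫_ℂ‖ ^ 2 ≤ ‖w‖ ^ 2)
    (hy : ∀ w : H, ∑ l ∈ R, ‖⟪y l, w⟫_ℂ‖ ^ 2 ≤ ‖w‖ ^ 2)
    {u v : H} (hu : ‖u‖ ≤ 1) (hv : ‖v‖ ≤ 1) :
    ∑ l ∈ R, ‖⟪v, x l⟫_ℂ‖ * ‖⟪y l, u⟫_ℂ‖ ≤ 1 := by
  have h1 := Finset.sum_mul_sq_le_sq_mul_sq R (fun l => ‖⟪v, x l⟫_ℂ‖) (fun l => ‖⟪y l, u⟫_ℂ‖)
  have h2 : ∑ l ∈ R, ‖⟪v, x l⟫_ℂ‖ ^ 2 ≤ 1 := by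
    have := hx v
    simp only [norm_inner_symm] at this ⊢
    have h3 : ‖v‖ ^ 2 ≤ 1 := by
      have := norm_nonneg v
      nlinarith
    calc _ = ∑ l ∈ R, ‖⟪x l, v⟫_ℂ‖ ^ 2 := by
          refine Finset.sum_congr rfl fun l _ => ?_
          rw [norm_inner_symm]
      _ ≤ ‖v‖ ^ 2 := hx v
      _ ≤ 1 := h3
  have h4 : ∑ l ∈ R, ‖⟪y l, u⟫_ℂ‖ ^ 2 ≤ 1 := by
    refine (hy u).trans ?_
    have := norm_nonneg u
    nlinarith
  have h5 : 0 ≤ ∑ l ∈ R, ‖⟪v, x l⟫_ℂ‖ ^ 2 := Finset.sum_nonneg fun _ _ => by positivity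
  have h6 : 0 ≤ ∑ l ∈ R, ‖⟪y l, u⟫_ℂ‖ ^ 2 := Finset.sum_nonneg fun _ _ => by positivity
  have h7 : (∑ l ∈ R, ‖⟪v, x l⟫_ℂ‖ * ‖⟪y l, u⟫_ℂ‖) ^ 2 ≤ 1 ^ 2 := by
    refine h1.trans ?_
    nlinarith
  exact le_of_sq_le_sq h7 (by norm_num) |>.trans_eq rfl

/-- the matrix with orthogonal columns multiplies the sum of squares by `N` -/
theorem orth_sum {J K : Type*} [Fintype J] [Fintype K] [DecidableEq J] (T : K → J → ℝ) (N : ℝ)
    (hT : ∀ j j', ∑ k, T k j * T k j' = if j = j' then N else 0) (g : J → H) :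
    ∑ k, ‖∑ j, (T k j : ℂ) • g j‖ ^ 2 = N * ∑ j, ‖g j‖ ^ 2 := by
  have h1 : ((∑ k, ‖∑ j, (T k j : ℂ) • g j‖ ^ 2 : ℝ) : ℂ) = ((N * ∑ j, ‖g j‖ ^ 2 : ℝ) : ℂ) := by
    have e1 : ∀ x : H, ((‖x‖ ^ 2 : ℝ) : ℂ) = ⟪x, x⟫_ℂ := fun x => by
      rw [inner_self_eq_norm_sq_to_K]
      norm_cast
    rw [Complex.ofReal_sum, Complex.ofReal_mul, Complex.ofReal_sum]
    simp_rw [e1, sum_inner, inner_sum, inner_smul_left, inner_smul_right, Complex.conj_ofReal]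
    rw [Finset.sum_comm, Finset.mul_sum]
    refine Finset.sum_congr rfl fun j _ => ?_
    rw [Finset.sum_comm]
    have h2 : ∀ j', ∑ k, (T k j : ℂ) * ((T k j' : ℂ) * ⟪g j, g j'⟫_ℂ)
        = if j = j' then (N : ℂ) * ⟪g j, g j⟫_ℂ else 0 := by
      intro j'
      have h3 : ∑ k, (T k j : ℂ) * ((T k j' : ℂ) * ⟪g j, g j'⟫_ℂ)
          = ((∑ k, T k j * T k j' : ℝ) : ℂ) * ⟪g j, g j'⟫_ℂ := by
        push_cast
        rw [Finset.sum_mul]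
        refine Finset.sum_congr rfl fun k _ => ?_
        ring
      rw [h3, hT j j']
      split_ifs with h
      · rw [← h]
      · simp
    simp_rw [h2]
    simp
  exact_mod_cast h1

theorem ofReal_sq_norm (y : H) : ENNReal.ofReal (‖y‖ ^ 2) = ‖y‖ₑ ^ 2 := by
  rw [ENNReal.ofReal_pow (norm_nonneg _), ofReal_norm]

theorem ofReal_sq_normC (y : ℂ) : ENNReal.ofReal (‖y‖ ^ 2) = ‖y‖ₑ ^ 2 := by
  rw [ENNReal.ofReal_pow (norm_nonneg _), ofReal_norm]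

theorem norm_sq_orth {I : Type*} (S : Finset I) {v : I → H} (hv : Orthonormal ℂ v) (a : I → ℂ) :
    ‖∑ i ∈ S, a i • v i‖ ^ 2 = ∑ i ∈ S, ‖a i‖ ^ 2 := by
  have h1 : ((‖∑ i ∈ S, a i • v i‖ ^ 2 : ℝ) : ℂ) = ((∑ i ∈ S, ‖a i‖ ^ 2 : ℝ) : ℂ) := by
    have e1 : ∀ x : H, ((‖x‖ ^ 2 : ℝ) : ℂ) = ⟪x, x⟫_ℂ := fun x => by
      rw [inner_self_eq_norm_sq_to_K]
      norm_cast
    rw [e1, hv.inner_sum]
    push_cast
    refine Finset.sum_congr rfl fun i _ => ?_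
    rw [Complex.conj_mul']
  exact_mod_cast h1

/-- the Hilbert–Schmidt estimate -/
theorem hs_est {J K : Type*} [Fintype J] [Fintype K] [DecidableEq J] (T : K → J → ℝ) (N : ℝ)
    (hN : 0 ≤ N) (hT : ∀ j j', ∑ k, T k j * T k j' = if j = j' then N else 0)
    {ι : J → Type*} (S : ∀ j, Finset (ι j)) (v u : ∀ j, ι j → H) (hv : ∀ j, Orthonormal ℂ (v j))
    (hu : ∀ j i, ‖u j i‖ ≤ 1) {Λ : K → Type*} (R : ∀ k, Finset (Λ k)) (x y : ∀ k, Λ k → H)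
    (hx : ∀ k (w : H), ∑ l ∈ R k, ‖⟪x k l, w⟫_ℂ‖ ^ 2 ≤ ‖w‖ ^ 2)
    (hy : ∀ k l, ‖y k l‖ ≤ 1) (a : ∀ j, ι j → ℂ) :
    ∑ k, ∑ l ∈ R k, ‖∑ j, (T k j : ℂ) * ∑ i ∈ S j, a j i * (⟪v j i, x k l⟫_ℂ * ⟪y k l, u j i⟫_ℂ)‖ ^ 2
      ≤ N * ∑ j, ∑ i ∈ S j, ‖a j i‖ ^ 2 := by
  obtain ⟨M, f, -⟩ := exists_hilbertBasis ℂ H
  let w : ∀ k, Λ k → H := fun k l => ∑ j, (T k j : ℂ) • ∑ i ∈ S j, (a j i * ⟪v j i, x k l⟫_ℂ) • u j i
  let g : J → M → H := fun j m => ∑ i ∈ S j, (starRingEnd ℂ (a j i * ⟪f m, u j i⟫_ℂ)) • v j i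
  let G : K → M → H := fun k m => ∑ j, (T k j : ℂ) • g j m
  have h1 : ∀ k l, ‖∑ j, (T k j : ℂ) * ∑ i ∈ S j, a j i * (⟪v j i, x k l⟫_ℂ * ⟪y k l, u j i⟫_ℂ)‖
      ≤ ‖w k l‖ := by
    intro k l
    have e : ∑ j, (T k j : ℂ) * ∑ i ∈ S j, a j i * (⟪v j i, x k l⟫_ℂ * ⟪y k l, u j i⟫_ℂ)
        = ⟪y k l, w k l⟫_ℂ := by
      simp only [w, inner_sum, inner_smul_right]
      refine Finset.sum_congr rfl fun j _ => ?_
      congr 1
      refine Finset.sum_congr rfl fun i _ => ?_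
      ring
    rw [e]
    calc _ ≤ ‖y k l‖ * ‖w k l‖ := norm_inner_le_norm _ _
      _ ≤ 1 * ‖w k l‖ := by gcongr; exact hy k l
      _ = _ := one_mul _
  have h2 : ∀ k l m, ⟪f m, w k l⟫_ℂ = ⟪G k m, x k l⟫_ℂ := by
    intro k l m
    simp only [w, G, g, inner_sum, sum_inner, inner_smul_right, inner_smul_left,
      Complex.conj_ofReal, Complex.conj_conj]
    refine Finset.sum_congr rfl fun j _ => ?_
    congr 1
    refine Finset.sum_congr rfl fun i _ => ?_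
    ring
  have h3 : ∀ k m, ∑ l ∈ R k, ‖⟪f m, w k l⟫_ℂ‖ₑ ^ 2 ≤ ‖G k m‖ₑ ^ 2 := by
    intro k m
    rw [← ofReal_sq_norm]
    simp_rw [← ofReal_sq_normC]
    rw [← ENNReal.ofReal_sum_of_nonneg (fun _ _ => by positivity)]
    apply ENNReal.ofReal_le_ofReal
    refine le_trans (le_of_eq ?_) (hx k (G k m))
    refine Finset.sum_congr rfl fun l _ => ?_
    rw [h2, norm_inner_symm]
  have h4 : ∀ m, ∑ k, ‖G k m‖ₑ ^ 2 = ENNReal.ofReal N * ∑ j, ‖g j m‖ₑ ^ 2 := by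
    intro m
    simp_rw [← ofReal_sq_norm]
    rw [← ENNReal.ofReal_sum_of_nonneg (fun _ _ => by positivity),
      ← ENNReal.ofReal_sum_of_nonneg (fun _ _ => by positivity), ← ENNReal.ofReal_mul hN,
      orth_sum T N hT]
  have h5 : ∀ j m, ‖g j m‖ₑ ^ 2 = ∑ i ∈ S j, ‖a j i‖ₑ ^ 2 * ‖⟪f m, u j i⟫_ℂ‖ₑ ^ 2 := by
    intro j m
    rw [← ofReal_sq_norm, norm_sq_orth (S j) (hv j),
      ENNReal.ofReal_sum_of_nonneg (fun _ _ => by positivity)]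
    refine Finset.sum_congr rfl fun i _ => ?_
    rw [ofReal_sq_normC, RCLike.enorm_conj, enorm_mul, mul_pow]
  have key : ∑ k, ∑ l ∈ R k, ‖w k l‖ₑ ^ 2
      ≤ ENNReal.ofReal N * ∑ j, ∑ i ∈ S j, ‖a j i‖ₑ ^ 2 := by
    calc ∑ k, ∑ l ∈ R k, ‖w k l‖ₑ ^ 2 = ∑ k, ∑ l ∈ R k, ∑' m, ‖⟪f m, w k l⟫_ℂ‖ₑ ^ 2 := by
          simp_rw [parseval f]
      _ = ∑' m, ∑ k, ∑ l ∈ R k, ‖⟪f m, w k l⟫_ℂ‖ₑ ^ 2 := by
          rw [Summable.tsum_finsetSum (fun _ _ => ENNReal.summable)]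
          refine Finset.sum_congr rfl fun k _ => ?_
          rw [Summable.tsum_finsetSum (fun _ _ => ENNReal.summable)]
      _ ≤ ∑' m, ∑ k, ‖G k m‖ₑ ^ 2 := by
          refine ENNReal.tsum_le_tsum fun m => ?_
          exact Finset.sum_le_sum fun k _ => h3 k m
      _ = ∑' m, ENNReal.ofReal N * ∑ j, ∑ i ∈ S j, ‖a j i‖ₑ ^ 2 * ‖⟪f m, u j i⟫_ℂ‖ₑ ^ 2 := by
          simp_rw [h4, h5]
      _ = ENNReal.ofReal N * ∑ j, ∑ i ∈ S j, ‖a j i‖ₑ ^ 2 * ‖u j i‖ₑ ^ 2 := by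
          rw [ENNReal.tsum_mul_left]
          congr 1
          rw [Summable.tsum_finsetSum (fun _ _ => ENNReal.summable)]
          refine Finset.sum_congr rfl fun j _ => ?_
          rw [Summable.tsum_finsetSum (fun _ _ => ENNReal.summable)]
          refine Finset.sum_congr rfl fun i _ => ?_
          rw [ENNReal.tsum_mul_left, parseval f]
      _ ≤ _ := by
          gcongr with j _ i _
          calc ‖a j i‖ₑ ^ 2 * ‖u j i‖ₑ ^ 2 ≤ ‖a j i‖ₑ ^ 2 * 1 ^ 2 := by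
                gcongr
                rw [← ofReal_norm, ← ENNReal.ofReal_one]
                exact ENNReal.ofReal_le_ofReal (hu j i)
            _ = _ := by simp
  have key2 : ∑ k, ∑ l ∈ R k, ‖w k l‖ ^ 2 ≤ N * ∑ j, ∑ i ∈ S j, ‖a j i‖ ^ 2 := by
    rw [← ENNReal.ofReal_le_ofReal_iff (by positivity), ENNReal.ofReal_mul hN,
      ENNReal.ofReal_sum_of_nonneg (fun _ _ => by positivity),
      ENNReal.ofReal_sum_of_nonneg (fun _ _ => by positivity)]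
    refine le_trans (le_of_eq ?_) (key.trans (le_of_eq ?_))
    · refine Finset.sum_congr rfl fun k _ => ?_
      rw [ENNReal.ofReal_sum_of_nonneg (fun _ _ => by positivity)]
      refine Finset.sum_congr rfl fun l _ => ?_
      rw [ofReal_sq_norm]
    · congr 1
      refine Finset.sum_congr rfl fun j _ => ?_
      rw [ENNReal.ofReal_sum_of_nonneg (fun _ _ => by positivity)]
      refine Finset.sum_congr rfl fun i _ => ?_
      rw [ofReal_sq_normC]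
  refine le_trans ?_ key2
  gcongr with k _ l _
  exact h1 k l

end Pool.Agent.K4H38.Clark
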