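import Mathlib
import Pool.Agent.K4H38.ClarkA
set_option autoImplicit false
set_option linter.unusedSectionVars false
open scoped ENNReal InnerProductSpace Topology
open Module ContinuousLinearMap Pool.Agent.Helper872.Sch

namespace Pool.Agent.K4H38.Clark

universe u
variable {H : Type u} [NormedAddCommGroup H] [InnerProductSpace ℂ H] [CompleteSpace H]

section
variable {J K : Type*} [Fintype J] [Fintype K] [DecidableEq J] (T : K → J → ℝ)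
    {ι : J → Type*} (S : ∀ j, Finset (ι j)) (v u : ∀ j, ι j → H)
    {Λ : K → Type*} (R : ∀ k, Finset (Λ k)) (x y : ∀ k, Λ k → H)
    (c : K → ℝ) (τ : ∀ k, Λ k → ℝ) (ρ : ∀ j, ι j → ℝ)

/-- the analytic family -/
noncomputable def F (z : ℂ) : ℂ :=
  ∑ k, ∑ l ∈ R k, (pw (c k) (1 - z / 2) * pw (τ k l) (z / 2)) *
    ∑ j, (T k j : ℂ) * ∑ i ∈ S j, pw (ρ j i) (1 - z / 2) * (⟪v j i, x k l⟫_ℂ * ⟪y k l, u j i⟫_ℂ)

theorem differentiable_F : Differentiable ℂ (F T S v u R x y c τ ρ) := by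
  unfold F
  have h1 : Differentiable ℂ (fun z : ℂ => 1 - z / 2) := by fun_prop
  have h2 : Differentiable ℂ (fun z : ℂ => z / 2) := by fun_prop
  refine Differentiable.fun_sum fun k _ => Differentiable.fun_sum fun l _ => ?_
  refine ((differentiable_pw _ h1).mul (differentiable_pw _ h2)).mul ?_
  refine Differentiable.fun_sum fun j _ => ?_
  refine (differentiable_const _).mul ?_
  refine Differentiable.fun_sum fun i _ => ?_
  exact (differentiable_pw _ h1).mul (differentiable_const _)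

variable (hc : ∀ k, 0 ≤ c k) (hτ : ∀ k l, 0 ≤ τ k l) (hρ : ∀ j i, 0 ≤ ρ j i)

include hc hτ hρ in
theorem bounded_F : BddAbove ((norm ∘ F T S v u R x y c τ ρ) ''
    Complex.HadamardThreeLines.verticalClosedStrip 0 1) := by
  refine ⟨∑ k, ∑ l ∈ R k, ((1 + c k) * (1 + τ k l)) *
    ∑ j, ‖(T k j : ℂ)‖ * ∑ i ∈ S j, (1 + ρ j i) * ‖⟪v j i, x k l⟫_ℂ * ⟪y k l, u j i⟫_ℂ‖, ?_⟩
  rintro _ ⟨z, hz, rfl⟩
  simp only [Complex.HadamardThreeLines.verticalClosedStrip, Set.mem_preimage, Set.mem_Icc] at hz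
  have e1 : (1 - z / 2).re = 1 - z.re / 2 := by simp
  have e2 : (z / 2).re = z.re / 2 := by simp
  simp only [Function.comp, F]
  refine (norm_sum_le _ _).trans (Finset.sum_le_sum fun k _ => ?_)
  refine (norm_sum_le _ _).trans (Finset.sum_le_sum fun l _ => ?_)
  rw [norm_mul, norm_mul]
  have := hc k
  have := hτ k l
  gcongr
  · exact norm_pw_le (hc k) (by rw [e1]; linarith [hz.2]) (by rw [e1]; linarith [hz.1])
  · exact norm_pw_le (hτ k l) (by rw [e2]; linarith [hz.1]) (by rw [e2]; linarith [hz.2])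
  · refine (norm_sum_le _ _).trans (Finset.sum_le_sum fun j _ => ?_)
    rw [norm_mul]
    gcongr
    refine (norm_sum_le _ _).trans (Finset.sum_le_sum fun i _ => ?_)
    rw [norm_mul]
    gcongr
    exact norm_pw_le (hρ j i) (by rw [e1]; linarith [hz.2]) (by rw [e1]; linarith [hz.1])

include hc hτ hρ in
theorem F_zero (hT1 : ∀ k j, |T k j| ≤ 1) (hv : ∀ j i, ‖v j i‖ ≤ 1) (hu : ∀ j i, ‖u j i‖ ≤ 1)
    (hx : ∀ k (w : H), ∑ l ∈ R k, ‖⟪x k l, w⟫_ℂ‖ ^ 2 ≤ ‖w‖ ^ 2)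
    (hy : ∀ k (w : H), ∑ l ∈ R k, ‖⟪y k l, w⟫_ℂ‖ ^ 2 ≤ ‖w‖ ^ 2) {z : ℂ} (hz : z.re = 0) :
    ‖F T S v u R x y c τ ρ z‖ ≤ (∑ k, c k) * ∑ j, ∑ i ∈ S j, ρ j i := by
  have e1 : (1 - z / 2).re = 1 := by simp [hz]
  have e2 : (z / 2).re = 0 := by simp [hz]
  have h1 : ‖F T S v u R x y c τ ρ z‖ ≤ ∑ k, ∑ l ∈ R k, c k *
      ∑ j, ∑ i ∈ S j, ρ j i * (‖⟪v j i, x k l⟫_ℂ‖ * ‖⟪y k l, u j i⟫_ℂ‖) := by
    unfold F
    refine (norm_sum_le _ _).trans (Finset.sum_le_sum fun k _ => ?_)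
    refine (norm_sum_le _ _).trans (Finset.sum_le_sum fun l _ => ?_)
    rw [norm_mul, norm_mul, norm_pw_one (hc k) e1]
    have h2 : c k * ‖pw (τ k l) (z / 2)‖ ≤ c k := by
      have := norm_pw_zero (hτ k l) e2
      have := hc k
      nlinarith
    refine mul_le_mul h2 ?_ (norm_nonneg _) (hc k)
    refine (norm_sum_le _ _).trans (Finset.sum_le_sum fun j _ => ?_)
    rw [norm_mul]
    have h3 : ‖(T k j : ℂ)‖ ≤ 1 := by
      rw [Complex.norm_real]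
      exact hT1 k j
    have h4 : ‖∑ i ∈ S j, pw (ρ j i) (1 - z / 2) * (⟪v j i, x k l⟫_ℂ * ⟪y k l, u j i⟫_ℂ)‖
        ≤ ∑ i ∈ S j, ρ j i * (‖⟪v j i, x k l⟫_ℂ‖ * ‖⟪y k l, u j i⟫_ℂ‖) := by
      refine (norm_sum_le _ _).trans (Finset.sum_le_sum fun i _ => ?_)
      rw [norm_mul, norm_mul, norm_pw_one (hρ j i) e1]
    calc _ ≤ 1 * ∑ i ∈ S j, ρ j i * (‖⟪v j i, x k l⟫_ℂ‖ * ‖⟪y k l, u j i⟫_ℂ‖) := by gcongr
      _ = _ := one_mul _
  refine h1.trans ?_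
  rw [Finset.sum_mul]
  refine Finset.sum_le_sum fun k _ => ?_
  rw [← Finset.mul_sum]
  refine mul_le_mul_of_nonneg_left ?_ (hc k)
  rw [Finset.sum_comm]
  refine Finset.sum_le_sum fun j _ => ?_
  rw [Finset.sum_comm]
  refine Finset.sum_le_sum fun i _ => ?_
  rw [← Finset.mul_sum]
  have := cs_bessel (R k) (x k) (y k) (hx k) (hy k) (hu j i) (hv j i)
  have := hρ j i
  nlinarith

include hc hτ hρ in
theorem F_one (N : ℝ) (hN : 0 ≤ N) (hT : ∀ j j', ∑ k, T k j * T k j' = if j = j' then N else 0)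
    (hv : ∀ j, Orthonormal ℂ (v j)) (hu : ∀ j i, ‖u j i‖ ≤ 1)
    (hx : ∀ k (w : H), ∑ l ∈ R k, ‖⟪x k l, w⟫_ℂ‖ ^ 2 ≤ ‖w‖ ^ 2)
    (hy : ∀ k l, ‖y k l‖ ≤ 1) (hτ1 : ∀ k, ∑ l ∈ R k, τ k l ≤ 1) {z : ℂ} (hz : z.re = 1) :
    ‖F T S v u R x y c τ ρ z‖ ≤ (N * (∑ j, ∑ i ∈ S j, ρ j i) * ∑ k, c k) ^ (1 / 2 : ℝ) := by
  have e1 : (1 - z / 2).re = 1 / 2 := by simp [hz]; norm_num
  have e2 : (z / 2).re = 1 / 2 := by simp [hz]
  let D : ∀ k, Λ k → ℂ := fun k l =>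
    ∑ j, (T k j : ℂ) * ∑ i ∈ S j, pw (ρ j i) (1 - z / 2) * (⟪v j i, x k l⟫_ℂ * ⟪y k l, u j i⟫_ℂ)
  have h0 := hs_est T N hN hT S v u hv hu R x y hx hy (fun j i => pw (ρ j i) (1 - z / 2))
  have h0' : ∑ k, ∑ l ∈ R k, ‖D k l‖ ^ 2 ≤ N * ∑ j, ∑ i ∈ S j, ρ j i := by
    refine h0.trans (le_of_eq ?_)
    congr 1
    refine Finset.sum_congr rfl fun j _ => Finset.sum_congr rfl fun i _ => ?_
    exact norm_pw_half (hρ j i) e1
  have h1 : ‖F T S v u R x y c τ ρ z‖ ≤ ∑ k, ∑ l ∈ R k,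
      ‖pw (c k) (1 - z / 2) * pw (τ k l) (z / 2)‖ * ‖D k l‖ := by
    unfold F
    refine (norm_sum_le _ _).trans (Finset.sum_le_sum fun k _ => ?_)
    refine (norm_sum_le _ _).trans (Finset.sum_le_sum fun l _ => ?_)
    rw [norm_mul]
  have h2 : (∑ k, ∑ l ∈ R k, ‖pw (c k) (1 - z / 2) * pw (τ k l) (z / 2)‖ * ‖D k l‖) ^ 2
      ≤ (∑ k, ∑ l ∈ R k, ‖pw (c k) (1 - z / 2) * pw (τ k l) (z / 2)‖ ^ 2) *
        ∑ k, ∑ l ∈ R k, ‖D k l‖ ^ 2 := by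
    rw [Finset.sum_sigma', Finset.sum_sigma', Finset.sum_sigma']
    exact Finset.sum_mul_sq_le_sq_mul_sq _ _ _
  have h3 : ∑ k, ∑ l ∈ R k, ‖pw (c k) (1 - z / 2) * pw (τ k l) (z / 2)‖ ^ 2 ≤ ∑ k, c k := by
    refine Finset.sum_le_sum fun k _ => ?_
    simp_rw [norm_mul, mul_pow, norm_pw_half (hc k) e1, norm_pw_half (hτ k _) e2]
    rw [← Finset.mul_sum]
    have := hτ1 k
    have := hc k
    nlinarith
  have hC : 0 ≤ ∑ k, c k := Finset.sum_nonneg fun k _ => hc k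
  have h4 : ‖F T S v u R x y c τ ρ z‖ ^ 2 ≤ N * (∑ j, ∑ i ∈ S j, ρ j i) * ∑ k, c k := by
    calc ‖F T S v u R x y c τ ρ z‖ ^ 2 ≤ _ := pow_le_pow_left₀ (norm_nonneg _) h1 2
      _ ≤ _ := h2
      _ ≤ (∑ k, c k) * (N * ∑ j, ∑ i ∈ S j, ρ j i) := by
          refine mul_le_mul h3 h0' ?_ hC
          exact Finset.sum_nonneg fun _ _ => Finset.sum_nonneg fun _ _ => by positivity
      _ = _ := by ring
  rw [← Real.sqrt_eq_rpow]
  exact Real.le_sqrt_of_sq_le h4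

include hc hτ hρ in
theorem core (N : ℝ) (hN : 0 ≤ N) (hT : ∀ j j', ∑ k, T k j * T k j' = if j = j' then N else 0)
    (hT1 : ∀ k j, |T k j| ≤ 1)
    (hv : ∀ j, Orthonormal ℂ (v j)) (hu : ∀ j i, ‖u j i‖ ≤ 1)
    (hx : ∀ k (w : H), ∑ l ∈ R k, ‖⟪x k l, w⟫_ℂ‖ ^ 2 ≤ ‖w‖ ^ 2)
    (hy : ∀ k (w : H), ∑ l ∈ R k, ‖⟪y k l, w⟫_ℂ‖ ^ 2 ≤ ‖w‖ ^ 2)
    (hy1 : ∀ k l, ‖y k l‖ ≤ 1) (hτ1 : ∀ k, ∑ l ∈ R k, τ k l ≤ 1)
    {p q : ℝ} (hp : 1 < p) (hp2 : p ≤ 2) (hpq : 1 / p + 1 / q = 1) :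
    ‖∑ k, ∑ l ∈ R k, (((c k) ^ (1 / p) * (τ k l) ^ (1 / q) : ℝ) : ℂ) *
      ∑ j, (T k j : ℂ) * ∑ i ∈ S j, (((ρ j i) ^ (1 / p) : ℝ) : ℂ) *
        (⟪v j i, x k l⟫_ℂ * ⟪y k l, u j i⟫_ℂ)‖
      ≤ N ^ (1 / q) * ((∑ k, c k) * ∑ j, ∑ i ∈ S j, ρ j i) ^ (1 / p) := by
  have hp0 : 0 < p := by linarith
  have hq0 : 0 < q := by
    have : 0 < 1 / q := by
      have : 1 / p < 1 := by rw [div_lt_one hp0]; exact hp
      linarith
    exact one_div_pos.1 this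
  have hq2 : 2 ≤ q := by
    have h1 : 1 / 2 ≤ 1 / p := one_div_le_one_div_of_le hp0 hp2
    have h2 : 1 / q ≤ 1 / 2 := by linarith
    exact (one_div_le_one_div hq0 (by norm_num)).1 h2
  set θ : ℝ := 2 / q with hθ
  have hθ0 : 0 < θ := by positivity
  have hθ1 : θ ≤ 1 := by rw [hθ, div_le_one hq0]; exact hq2
  have hs : (θ : ℂ) ∈ Complex.HadamardThreeLines.verticalClosedStrip 0 1 := by
    simp only [Complex.HadamardThreeLines.verticalClosedStrip, Set.mem_preimage, Set.mem_Icc,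
      Complex.ofReal_re]
    exact ⟨hθ0.le, hθ1⟩
  have h := Complex.HadamardThreeLines.norm_le_interp_of_mem_verticalClosedStrip₀₁'
    (F T S v u R x y c τ ρ) (z := (θ : ℂ)) hs
    (differentiable_F T S v u R x y c τ ρ).diffContOnCl
    (bounded_F T S v u R x y c τ ρ hc hτ hρ)
    (fun z hz => F_zero T S v u R x y c τ ρ hc hτ hρ hT1 (fun j i => ((hv j).1 i).le) hu hx hy hz)
    (fun z hz => F_one T S v u R x y c τ ρ hc hτ hρ N hN hT hv hu hx hy1 hτ1 hz)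
  have e1 : (1 : ℂ) - (θ : ℂ) / 2 = ((1 / p : ℝ) : ℂ) := by
    have : (1 : ℝ) - θ / 2 = 1 / p := by
      rw [hθ]
      have : 2 / q / 2 = 1 / q := by ring
      rw [this]
      linarith
    rw [← this]
    push_cast
    ring
  have e2 : (θ : ℂ) / 2 = ((1 / q : ℝ) : ℂ) := by
    rw [hθ]
    push_cast
    ring
  have e3 : F T S v u R x y c τ ρ (θ : ℂ) = ∑ k, ∑ l ∈ R k,
      (((c k) ^ (1 / p) * (τ k l) ^ (1 / q) : ℝ) : ℂ) *
      ∑ j, (T k j : ℂ) * ∑ i ∈ S j, (((ρ j i) ^ (1 / p) : ℝ) : ℂ) *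
        (⟪v j i, x k l⟫_ℂ * ⟪y k l, u j i⟫_ℂ) := by
    unfold F
    rw [e1, e2]
    have hp' : 0 < 1 / p := by positivity
    have hq' : 0 < 1 / q := by positivity
    refine Finset.sum_congr rfl fun k _ => Finset.sum_congr rfl fun l _ => ?_
    rw [pw_real (hc k) hp', pw_real (hτ k l) hq', Complex.ofReal_mul]
    congr 1
    refine Finset.sum_congr rfl fun j _ => ?_
    congr 1
    refine Finset.sum_congr rfl fun i _ => ?_
    rw [pw_real (hρ j i) hp']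
  rw [e3] at h
  refine h.trans (le_of_eq ?_)
  rw [Complex.ofReal_re]
  have hC : 0 ≤ ∑ k, c k := Finset.sum_nonneg fun k _ => hc k
  have hP : 0 ≤ ∑ j, ∑ i ∈ S j, ρ j i :=
    Finset.sum_nonneg fun j _ => Finset.sum_nonneg fun i _ => hρ j i
  rw [← Real.rpow_mul (by positivity)]
  have e4 : N * (∑ j, ∑ i ∈ S j, ρ j i) * ∑ k, c k = N * ((∑ k, c k) * ∑ j, ∑ i ∈ S j, ρ j i) := by
    ring
  have e5 : 1 / 2 * θ = 1 / q := by rw [hθ]; ring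
  rw [e4, e5, Real.mul_rpow hN (by positivity), mul_comm, mul_assoc,
    ← Real.rpow_add' (by positivity)]
  · congr 2
    rw [hθ]
    have : 2 / q = 2 * (1 / q) := by ring
    rw [this]
    linarith
  · have : 1 / q + (1 - θ) = 1 / p := by
      rw [hθ]
      have : 2 / q = 2 * (1 / q) := by ring
      rw [this]
      linarith
    rw [this]
    positivity
end

end Pool.Agent.K4H38.Clark
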