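import Mathlib
import Pool.Agent.K4H38.ClarkB
set_option autoImplicit false
set_option linter.unusedSectionVars false
open scoped ENNReal InnerProductSpace Topology
open Module ContinuousLinearMap Pool.Agent.Helper872.Sch

namespace Pool.Agent.K4H38.Clark

universe u
variable {H : Type u} [NormedAddCommGroup H] [InnerProductSpace ℂ H] [CompleteSpace H]

theorem compact_comb {J : Type*} [Fintype J] (t : J → ℂ) (A : J → H →L[ℂ] H)
    (hA : ∀ j, IsCompactOperator (A j)) : IsCompactOperator (∑ j, t j • A j : H →L[ℂ] H) := by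
  classical
  induction (Finset.univ : Finset J) using Finset.induction_on with
  | empty => simpa using (isCompactOperator_zero : IsCompactOperator (0 : H → H))
  | insert a s ha ih =>
    rw [Finset.sum_insert ha]
    exact ((hA a).smul (t a)).add ih

/-- Bessel's inequality over a finite set for a Hilbert basis -/
theorem bessel_basis {Λ : Type*} (x : HilbertBasis Λ ℂ H) (R : Finset Λ) (w : H) :
    ∑ l ∈ R, ‖⟪x l, w⟫_ℂ‖ ^ 2 ≤ ‖w‖ ^ 2 := x.orthonormal.sum_inner_products_le w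

/-- Bessel's inequality for the left singular vectors -/
theorem bessel_lsv {Λ : Type*} {x : HilbertBasis Λ ℂ H} {a : H →L[ℂ] H} (hb : SingBasis x a)
    (R : Finset Λ) (w : H) : ∑ l ∈ R, ‖⟪lsv x a l, w⟫_ℂ‖ ^ 2 ≤ ‖w‖ ^ 2 := by
  have h := (ENNReal.sum_le_tsum R).trans (lsv_bessel hb w)
  simp_rw [← ofReal_sq_normC] at h
  rw [← ENNReal.ofReal_sum_of_nonneg (fun _ _ => by positivity), ← ofReal_sq_norm,
    ENNReal.ofReal_le_ofReal_iff (by positivity)] at h
  exact h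

theorem norm_lsv_le {Λ : Type*} (x : HilbertBasis Λ ℂ H) (a : H →L[ℂ] H) (l : Λ) :
    ‖lsv x a l‖ ≤ 1 := by
  have h := lsv_norm_le x a l
  rw [← ofReal_norm, ← ENNReal.ofReal_one] at h
  exact (ENNReal.ofReal_le_ofReal_iff zero_le_one).1 h

theorem inner_lsv {Λ : Type*} (x : HilbertBasis Λ ℂ H) (a : H →L[ℂ] H) (l : Λ) :
    ⟪lsv x a l, a (x l)⟫_ℂ = ((‖a (x l)‖ : ℝ) : ℂ) := by
  unfold lsv
  rw [inner_smul_left, Complex.conj_ofReal, inner_self_eq_norm_sq_to_K]
  by_cases h : ‖a (x l)‖ = 0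
  · rw [h]; simp
  · have : ((‖a (x l)‖ : ℝ) : ℂ) ≠ 0 := by exact_mod_cast h
    push_cast
    field_simp
    norm_cast

/-- truncations of the singular expansion converge -/
theorem trunc_tendsto {I : Type*} (b : HilbertBasis I ℂ H) (a : H →L[ℂ] H) (x y : H) :
    HasSum (fun i => ((‖a (b i)‖ : ℝ) : ℂ) * (⟪b i, x⟫_ℂ * ⟪y, lsv b a i⟫_ℂ)) ⟪y, a x⟫_ℂ := by
  have h1 := ((b.hasSum_repr x).mapL a).mapL (innerSL ℂ y)
  have h2 : HasSum (fun k => ⟪b k, x⟫_ℂ * ⟪y, a (b k)⟫_ℂ) ⟪y, a x⟫_ℂ := by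
    simpa [HilbertBasis.repr_apply_apply] using h1
  convert h2 using 2 with i
  conv_rhs => rw [lsv_spec b a i]
  rw [inner_smul_right]
  ring

theorem q_facts {p q : ℝ} (hp : 1 < p) (hpq : 1 / p + 1 / q = 1) :
    0 < p ∧ 0 < q ∧ q / p = q - 1 ∧ p / q = p - 1 := by
  have hp0 : 0 < p := by linarith
  have hq0 : 0 < q := by
    have : 0 < 1 / q := by
      have : 1 / p < 1 := by rw [div_lt_one hp0]; exact hp
      linarith
    exact one_div_pos.1 this
  refine ⟨hp0, hq0, ?_, ?_⟩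
  · have h : q * (1 / p + 1 / q) = q * 1 := by rw [hpq]
    have h2 : q * (1 / p + 1 / q) = q / p + 1 := by field_simp
    linarith
  · have h : p * (1 / p + 1 / q) = p * 1 := by rw [hpq]
    have h2 : p * (1 / p + 1 / q) = 1 + p / q := by field_simp
    linarith

theorem clark_fin {J K : Type*} [Fintype J] [Fintype K] [DecidableEq J] (T : K → J → ℝ) (N : ℝ)
    (hN : 0 < N) (hT : ∀ j j', ∑ k, T k j * T k j' = if j = j' then N else 0)
    (hT1 : ∀ k j, |T k j| ≤ 1) {p q : ℝ} (hp : 1 < p) (hp2 : p ≤ 2) (hpq : 1 / p + 1 / q = 1)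
    (A : J → H →L[ℂ] H) {ι : J → Type*} (b : ∀ j, HilbertBasis (ι j) ℂ H)
    {Λ : K → Type*} (x : ∀ k, HilbertBasis (Λ k) ℂ H)
    (hx : ∀ k, SingBasis (x k) (∑ j, (T k j : ℂ) • A j))
    (R : ∀ k, Finset (Λ k)) (P : ℝ)
    (hP : ∀ S : ∀ j, Finset (ι j), ∑ j, ∑ i ∈ S j, ‖A j (b j i)‖ ^ p ≤ P) :
    ∑ k, (∑ l ∈ R k, ‖(∑ j, (T k j : ℂ) • A j) (x k l)‖ ^ p) ^ (q / p) ≤ N * P ^ (q / p) := by
  classical
  obtain ⟨hp0, hq0, hqp, hpq'⟩ := q_facts hp hpq
  set B : K → H →L[ℂ] H := fun k => ∑ j, (T k j : ℂ) • A j with hB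
  have hP0 : 0 ≤ P := by
    refine le_trans ?_ (hP fun _ => ∅)
    simp
  let β : K → ℝ := fun k => ∑ l ∈ R k, ‖B k (x k l)‖ ^ p
  have hβ : ∀ k, 0 ≤ β k := fun k => Finset.sum_nonneg fun _ _ => by positivity
  let c : K → ℝ := fun k => β k ^ (q / p)
  have hc : ∀ k, 0 ≤ c k := fun k => Real.rpow_nonneg (hβ k) _
  let τ : ∀ k, Λ k → ℝ := fun k l => ‖B k (x k l)‖ ^ p / β k
  have hτ : ∀ k l, 0 ≤ τ k l := fun k l => div_nonneg (by positivity) (hβ k)
  have hτ1 : ∀ k, ∑ l ∈ R k, τ k l ≤ 1 := by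
    intro k
    simp only [τ]
    rw [← Finset.sum_div]
    exact div_self_le_one _
  let ρ : ∀ j, ι j → ℝ := fun j i => ‖A j (b j i)‖ ^ p
  have hρ : ∀ j i, 0 ≤ ρ j i := fun j i => by positivity
  set C : ℝ := ∑ k, c k with hC
  have hC0 : 0 ≤ C := Finset.sum_nonneg fun k _ => hc k
  have h1 : ∀ S : ∀ j, Finset (ι j), ‖∑ k, ∑ l ∈ R k,
      (((c k) ^ (1 / p) * (τ k l) ^ (1 / q) : ℝ) : ℂ) *
      ∑ j, (T k j : ℂ) * ∑ i ∈ S j, ((‖A j (b j i)‖ : ℝ) : ℂ) *
        (⟪b j i, x k l⟫_ℂ * ⟪lsv (x k) (B k) l, lsv (b j) (A j) i⟫_ℂ)‖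
      ≤ N ^ (1 / q) * (C * P) ^ (1 / p) := by
    intro S
    have h := core T S (fun j i => b j i) (fun j i => lsv (b j) (A j) i) R (fun k l => x k l)
      (fun k l => lsv (x k) (B k) l) c τ ρ hc hτ hρ N hN.le hT hT1
      (fun j => (b j).orthonormal) (fun j i => norm_lsv_le _ _ _)
      (fun k w => bessel_basis (x k) (R k) w) (fun k w => bessel_lsv (hx k) (R k) w)
      (fun k l => norm_lsv_le _ _ _) hτ1 hp hp2 hpq
    have e : ∀ j i, (ρ j i) ^ (1 / p) = ‖A j (b j i)‖ := by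
      intro j i
      simp only [ρ]
      rw [← Real.rpow_mul (norm_nonneg _), mul_one_div_cancel hp0.ne', Real.rpow_one]
    simp_rw [e] at h
    refine h.trans ?_
    gcongr
    exact hP S
  have h2 : ‖∑ k, ∑ l ∈ R k, (((c k) ^ (1 / p) * (τ k l) ^ (1 / q) : ℝ) : ℂ) *
      ∑ j, (T k j : ℂ) * ⟪lsv (x k) (B k) l, A j (x k l)⟫_ℂ‖ ≤ N ^ (1 / q) * (C * P) ^ (1 / p) := by
    have ht : Filter.Tendsto (fun S : ∀ j, Finset (ι j) => ∑ k, ∑ l ∈ R k,
      (((c k) ^ (1 / p) * (τ k l) ^ (1 / q) : ℝ) : ℂ) *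
      ∑ j, (T k j : ℂ) * ∑ i ∈ S j, ((‖A j (b j i)‖ : ℝ) : ℂ) *
        (⟪b j i, x k l⟫_ℂ * ⟪lsv (x k) (B k) l, lsv (b j) (A j) i⟫_ℂ)) Filter.atTop
        (𝓝 (∑ k, ∑ l ∈ R k, (((c k) ^ (1 / p) * (τ k l) ^ (1 / q) : ℝ) : ℂ) *
      ∑ j, (T k j : ℂ) * ⟪lsv (x k) (B k) l, A j (x k l)⟫_ℂ)) := by
      refine tendsto_finsetSum _ fun k _ => tendsto_finsetSum _ fun l _ => ?_
      refine Filter.Tendsto.const_mul _ ?_
      refine tendsto_finsetSum _ fun j _ => ?_
      refine Filter.Tendsto.const_mul _ ?_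
      have h3 := trunc_tendsto (b j) (A j) (x k l) (lsv (x k) (B k) l)
      have h4 : Filter.Tendsto (fun S : ∀ j, Finset (ι j) => S j) Filter.atTop Filter.atTop :=
        Monotone.tendsto_atTop_atTop (Function.monotone_eval j)
          (fun s => ⟨Function.update (fun _ => ∅) j s, by simp⟩)
      exact (h3.comp h4)
    have : (Filter.atTop : Filter (∀ j, Finset (ι j))).NeBot := Filter.atTop_neBot
    exact le_of_tendsto' ht.norm h1
  have h3 : ∑ k, ∑ l ∈ R k, (((c k) ^ (1 / p) * (τ k l) ^ (1 / q) : ℝ) : ℂ) *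
      ∑ j, (T k j : ℂ) * ⟪lsv (x k) (B k) l, A j (x k l)⟫_ℂ = (C : ℂ) := by
    rw [hC, Complex.ofReal_sum]
    refine Finset.sum_congr rfl fun k _ => ?_
    have e1 : ∀ l, ∑ j, (T k j : ℂ) * ⟪lsv (x k) (B k) l, A j (x k l)⟫_ℂ
        = ((‖B k (x k l)‖ : ℝ) : ℂ) := by
      intro l
      rw [← inner_lsv (x k) (B k) l]
      simp only [hB, sum_apply, smul_apply, inner_sum,
        inner_smul_right]
    simp_rw [e1]
    have e2 : ∑ l ∈ R k, ((c k) ^ (1 / p) * (τ k l) ^ (1 / q)) * ‖B k (x k l)‖ = c k := by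
      rcases (hβ k).eq_or_lt with h | h
      · have : c k = 0 := by
          simp only [c]
          rw [← h, Real.zero_rpow]
          positivity
        rw [this, Real.zero_rpow (by positivity)]
        simp
      · have e3 : ∀ l, ((c k) ^ (1 / p) * (τ k l) ^ (1 / q)) * ‖B k (x k l)‖
            = (β k ^ (q / p * (1 / p)) / β k ^ (1 / q)) * ‖B k (x k l)‖ ^ p := by
          intro l
          simp only [c, τ]
          rw [← Real.rpow_mul h.le, Real.div_rpow (by positivity) h.le,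
            ← Real.rpow_mul (norm_nonneg _)]
          have e4 : ‖B k (x k l)‖ ^ (p * (1 / q)) * ‖B k (x k l)‖ = ‖B k (x k l)‖ ^ p := by
            have : p = p * (1 / q) + 1 := by
              have : p * (1 / q) = p / q := by ring
              rw [this, hpq']
              ring
            conv_rhs => rw [this]
            rw [Real.rpow_add_one' (norm_nonneg _)]
            positivity
          rw [← e4]
          ring
        simp_rw [e3]
        rw [← Finset.mul_sum]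
        change _ * β k = _
        simp only [c]
        rw [← Real.rpow_sub h, ← Real.rpow_add_one h.ne']
        congr 1
        have e5 : 1 / p = 1 - 1 / q := by linarith
        rw [hqp, e5]
        field_simp
        ring
    refine Eq.trans ?_ (congrArg Complex.ofReal e2)
    push_cast
    rfl
  rw [h3, Complex.norm_real, Real.norm_of_nonneg hC0] at h2
  change C ≤ _
  rcases hC0.eq_or_lt with h | h
  · rw [← h]
    positivity
  · rw [Real.mul_rpow hC0 hP0] at h2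
    have h4 : C ^ (1 / p) * C ^ (1 / q) = C := by
      rw [← Real.rpow_add h, hpq, Real.rpow_one]
    have h5 : C ^ (1 / q) ≤ N ^ (1 / q) * P ^ (1 / p) := by
      have h6 : C ^ (1 / p) * C ^ (1 / q) ≤ C ^ (1 / p) * (N ^ (1 / q) * P ^ (1 / p)) := by
        rw [h4]
        refine h2.trans (le_of_eq ?_)
        ring
      exact le_of_mul_le_mul_left h6 (Real.rpow_pos_of_pos h _)
    calc C = (C ^ (1 / q)) ^ q := by
          rw [← Real.rpow_mul hC0, one_div_mul_cancel hq0.ne', Real.rpow_one]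
      _ ≤ (N ^ (1 / q) * P ^ (1 / p)) ^ q := by gcongr
      _ = N * P ^ (q / p) := by
          rw [Real.mul_rpow (by positivity) (by positivity), ← Real.rpow_mul hN.le,
            one_div_mul_cancel hq0.ne', Real.rpow_one, ← Real.rpow_mul hP0]
          congr 2
          ring

/-- the Clarkson-type inequality for `1 < p ≤ 2` -/
theorem clark_le {J K : Type*} [Fintype J] [Fintype K] [DecidableEq J] (T : K → J → ℝ) (N : ℝ)
    (hN : 0 < N) (hT : ∀ j j', ∑ k, T k j * T k j' = if j = j' then N else 0)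
    (hT1 : ∀ k j, |T k j| ≤ 1) {p q : ℝ} (hp : 1 < p) (hp2 : p ≤ 2) (hpq : 1 / p + 1 / q = 1)
    (A : J → H →L[ℂ] H) (hA : ∀ j, IsCompactOperator (A j)) :
    ∑ k, (trPow p (∑ j, (T k j : ℂ) • A j)) ^ (q / p)
      ≤ ENNReal.ofReal N * (∑ j, trPow p (A j)) ^ (q / p) := by
  classical
  obtain ⟨hp0, hq0, hqp, hpq'⟩ := q_facts hp hpq
  have hqp0 : 0 < q / p := by positivity
  by_cases hfin : ∑ j, trPow p (A j) = ⊤
  · rw [hfin, ENNReal.top_rpow_of_pos hqp0, ENNReal.mul_top]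
    · exact le_top
    · simpa using hN
  choose ι b hb using fun j => exists_singBasis (A j) (compact_star_mul (hA j))
  have hB : ∀ k, IsCompactOperator (∑ j, (T k j : ℂ) • A j : H →L[ℂ] H) := fun k =>
    compact_comb _ A hA
  choose Λ x hx using fun k => exists_singBasis (∑ j, (T k j : ℂ) • A j : H →L[ℂ] H)
    (compact_star_mul (hB k))
  set P : ℝ := (∑ j, trPow p (A j)).toReal with hPdef
  have henorm : ∀ y : H, ‖y‖ₑ ^ p = ENNReal.ofReal (‖y‖ ^ p) := fun y => by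
    rw [← ofReal_norm, ENNReal.ofReal_rpow_of_nonneg (norm_nonneg _) hp0.le]
  have hP : ∀ S : ∀ j, Finset (ι j), ∑ j, ∑ i ∈ S j, ‖A j (b j i)‖ ^ p ≤ P := by
    intro S
    rw [hPdef, ← ENNReal.ofReal_le_iff_le_toReal hfin,
      ENNReal.ofReal_sum_of_nonneg (fun _ _ => by positivity)]
    refine Finset.sum_le_sum fun j _ => ?_
    rw [trPow_eq (hb j) (compact_star_mul (hA j)) hp0,
      ENNReal.ofReal_sum_of_nonneg (fun _ _ => by positivity)]
    simp_rw [henorm]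
    exact ENNReal.sum_le_tsum _
  have hP0 : 0 ≤ P := ENNReal.toReal_nonneg
  have h1 : ∀ R : ∀ k, Finset (Λ k),
      ∑ k, (∑ l ∈ R k, ‖(∑ j, (T k j : ℂ) • A j) (x k l)‖ₑ ^ p) ^ (q / p)
        ≤ ENNReal.ofReal N * (∑ j, trPow p (A j)) ^ (q / p) := by
    intro R
    have h := clark_fin T N hN hT hT1 hp hp2 hpq A b x hx R P hP
    have h2 := ENNReal.ofReal_le_ofReal h
    rw [ENNReal.ofReal_mul hN.le, ← ENNReal.ofReal_rpow_of_nonneg hP0 hqp0.le,
      ENNReal.ofReal_toReal hfin, ENNReal.ofReal_sum_of_nonneg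
        (fun _ _ => by positivity)] at h2
    refine le_trans (le_of_eq ?_) h2
    refine Finset.sum_congr rfl fun k _ => ?_
    rw [← ENNReal.ofReal_rpow_of_nonneg (by positivity) hqp0.le,
      ENNReal.ofReal_sum_of_nonneg (fun _ _ => by positivity)]
    simp_rw [henorm]
  have ht : Filter.Tendsto (fun R : ∀ k, Finset (Λ k) =>
      ∑ k, (∑ l ∈ R k, ‖(∑ j, (T k j : ℂ) • A j) (x k l)‖ₑ ^ p) ^ (q / p)) Filter.atTop
      (𝓝 (∑ k, (trPow p (∑ j, (T k j : ℂ) • A j)) ^ (q / p))) := by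
    refine tendsto_finsetSum _ fun k _ => ?_
    refine (ENNReal.continuous_rpow_const.tendsto _).comp ?_
    rw [trPow_eq (hx k) (compact_star_mul (hB k)) hp0]
    have h4 : Filter.Tendsto (fun S : ∀ j, Finset (Λ j) => S k) Filter.atTop Filter.atTop :=
      Monotone.tendsto_atTop_atTop (Function.monotone_eval k)
        (fun s => ⟨Function.update (fun _ => ∅) k s, by simp⟩)
    exact (ENNReal.summable.hasSum).comp h4
  have : (Filter.atTop : Filter (∀ k, Finset (Λ k))).NeBot := Filter.atTop_neBot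
  exact le_of_tendsto' ht h1

end Pool.Agent.K4H38.Clark
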