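import Mathlib
import Pool.Agent.K4H38.ClarkC
set_option autoImplicit false
set_option linter.unusedSectionVars false
open scoped ENNReal InnerProductSpace Topology
open Module ContinuousLinearMap Pool.Agent.Helper872.Sch

namespace Pool.Agent.K4H38.Clark

universe u
variable {H : Type u} [NormedAddCommGroup H] [InnerProductSpace ℂ H] [CompleteSpace H]

/-- Hölder's inequality for arbitrary sums of extended nonnegative numbers -/
theorem holder_tsum {M : Type*} (f g : M → ℝ≥0∞) {p q : ℝ} (hpq : p.HolderConjugate q) :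
    ∑' m, f m * g m ≤ (∑' m, f m ^ p) ^ (1 / p) * (∑' m, g m ^ q) ^ (1 / q) := by
  have hp0 := hpq.pos
  have hq0 := hpq.symm.pos
  rw [ENNReal.tsum_eq_iSup_sum]
  apply iSup_le
  intro s
  refine (ENNReal.inner_le_Lp_mul_Lq s f g hpq).trans ?_
  gcongr
  · exact ENNReal.sum_le_tsum s
  · exact ENNReal.sum_le_tsum s

theorem pair_le {J : Type*} [Fintype J] (t : J → ℝ) {ι : J → Type*} (S : ∀ j, Finset (ι j))
    (w : ∀ j, ι j → ℝ) (b l : ∀ j, ι j → H) (Y : H →L[ℂ] H)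
    (hY : ∀ e, Y e = ∑ j, (t j : ℂ) • ∑ i ∈ S j, ((w j i : ℂ) * ⟪b j i, e⟫_ℂ) • l j i)
    (hYc : IsCompactOperator Y) (B : H →L[ℂ] H) (hB : IsCompactOperator B) {p q : ℝ}
    (hpq : p.HolderConjugate q) :
    ‖∑ j, (t j : ℂ) * ∑ i ∈ S j, (w j i : ℂ) * ⟪l j i, B (b j i)⟫_ℂ‖ₑ
      ≤ (trPow p B) ^ (1 / p) * (trPow q Y) ^ (1 / q) := by
  have hp0 := hpq.pos
  have hq0 := hpq.symm.pos
  obtain ⟨M, e, he⟩ := exists_singBasis Y (compact_star_mul hYc)
  have h1 : HasSum (fun m => ⟪Y (e m), B (e m)⟫_ℂ)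
      (∑ j, (t j : ℂ) * ∑ i ∈ S j, (w j i : ℂ) * ⟪l j i, B (b j i)⟫_ℂ) := by
    have e1 : ∀ m, ⟪Y (e m), B (e m)⟫_ℂ = ∑ j, (t j : ℂ) * ∑ i ∈ S j, (w j i : ℂ) *
        (⟪adjoint B (l j i), e m⟫_ℂ * ⟪e m, b j i⟫_ℂ) := by
      intro m
      rw [hY]
      simp only [sum_inner, inner_smul_left, Complex.conj_ofReal, map_mul, inner_conj_symm]
      refine Finset.sum_congr rfl fun j _ => ?_
      congr 1
      refine Finset.sum_congr rfl fun i _ => ?_
      rw [adjoint_inner_left]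
      ring
    simp_rw [e1]
    refine hasSum_sum fun j _ => ?_
    refine HasSum.mul_left _ ?_
    refine hasSum_sum fun i _ => ?_
    refine HasSum.mul_left _ ?_
    have := e.hasSum_inner_mul_inner (adjoint B (l j i)) (b j i)
    rw [adjoint_inner_left] at this
    exact this
  rw [← h1.tsum_eq]
  have h2 : ∀ m, ‖⟪Y (e m), B (e m)⟫_ℂ‖ₑ = ‖⟪lsv e Y m, B (e m)⟫_ℂ‖ₑ * ‖Y (e m)‖ₑ := by
    intro m
    conv_lhs => rw [lsv_spec e Y m]
    rw [inner_smul_left, enorm_mul, mul_comm, Complex.conj_ofReal]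
    congr 1
    rw [← ofReal_norm, Complex.norm_real, norm_norm, ofReal_norm]
  calc ‖∑' m, ⟪Y (e m), B (e m)⟫_ℂ‖ₑ ≤ ∑' m, ‖⟪Y (e m), B (e m)⟫_ℂ‖ₑ :=
        enorm_tsum_le_tsum_enorm
    _ = ∑' m, ‖⟪lsv e Y m, B (e m)⟫_ℂ‖ₑ * ‖Y (e m)‖ₑ := by simp_rw [h2]
    _ ≤ _ := holder_tsum _ _ hpq
    _ ≤ _ := by
      gcongr
      · have h3 : Function.support (fun m => ‖⟪lsv e Y m, B (e m)⟫_ℂ‖ₑ ^ p) ⊆ {m | Y (e m) ≠ 0} := by
          intro m hm h0
          apply hm
          simp [lsv, h0, ENNReal.zero_rpow_of_pos hp0]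
        rw [← tsum_subtype_eq_of_support_subset h3]
        exact biorth_le (e.orthonormal.comp _ Subtype.val_injective) (lsv_orthonormal he)
          (compact_star_mul hB) hpq.lt.le
      · rw [trPow_eq he (compact_star_mul hYc) hq0]

/-- the truncated dual operator -/
noncomputable def V {I : Type*} (b : HilbertBasis I ℂ H) (a : H →L[ℂ] H) (p : ℝ) (S : Finset I) :
    H →L[ℂ] H :=
  ∑ i ∈ S, ((‖a (b i)‖ ^ (p - 1) : ℝ) : ℂ) •
    ((ContinuousLinearMap.toSpanSingleton ℂ (lsv b a i)) ∘L (innerSL ℂ (b i)))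

theorem V_apply {I : Type*} (b : HilbertBasis I ℂ H) (a : H →L[ℂ] H) (p : ℝ) (S : Finset I)
    (e : H) : V b a p S e
      = ∑ i ∈ S, (((‖a (b i)‖ ^ (p - 1) : ℝ) : ℂ) * ⟪b i, e⟫_ℂ) • lsv b a i := by
  unfold V
  rw [sum_apply]
  refine Finset.sum_congr rfl fun i _ => ?_
  rw [smul_apply, ContinuousLinearMap.comp_apply, innerSL_apply_apply,
    ContinuousLinearMap.toSpanSingleton_apply, smul_smul]

theorem V_compact {I : Type*} (b : HilbertBasis I ℂ H) (a : H →L[ℂ] H) (p : ℝ) (S : Finset I) :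
    IsCompactOperator (V b a p S) := by
  classical
  unfold V
  induction S using Finset.induction_on with
  | empty => simpa using (isCompactOperator_zero : IsCompactOperator (0 : H → H))
  | insert i s hi ih =>
    rw [Finset.sum_insert hi]
    have h1 : IsCompactOperator (innerSL ℂ (b i) : H →L[ℂ] ℂ) :=
      isCompactOperator_of_locallyCompactSpace_dom (innerSL ℂ (b i) : H →L[ℂ] ℂ)
    exact ((h1.clm_comp (ContinuousLinearMap.toSpanSingleton ℂ (lsv b a i))).smul _).add ih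

theorem trPow_V_le {I : Type*} (b : HilbertBasis I ℂ H) (a : H →L[ℂ] H) {p q : ℝ} (S : Finset I)
    (hpq : p.HolderConjugate q) (hq : q ≤ 2) :
    trPow q (V b a p S) ≤ ∑ i ∈ S, ‖a (b i)‖ₑ ^ p := by
  classical
  have hp0 := hpq.pos
  have hq0 := hpq.symm.pos
  refine (trPow_le_sum b (compact_star_mul (V_compact b a p S)) hq0 hq).trans ?_
  have h1 : ∀ m, V b a p S (b m) = if m ∈ S then ((‖a (b m)‖ ^ (p - 1) : ℝ) : ℂ) • lsv b a m
      else 0 := by
    intro m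
    rw [V_apply]
    split_ifs with hm
    · rw [Finset.sum_eq_single m]
      · rw [inner_self_eq_norm_sq_to_K, b.orthonormal.1]
        simp
      · intro i _ him
        rw [b.orthonormal.2 him, mul_zero, zero_smul]
      · intro h
        exact absurd hm h
    · refine Finset.sum_eq_zero fun i hi => ?_
      have him : i ≠ m := fun h => hm (h ▸ hi)
      rw [b.orthonormal.2 him, mul_zero, zero_smul]
  have h2 : ∀ m, ‖V b a p S (b m)‖ₑ ^ q ≤ if m ∈ S then ‖a (b m)‖ₑ ^ p else 0 := by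
    intro m
    rw [h1]
    split_ifs with hm
    · rw [enorm_smul]
      have e1 : ‖((‖a (b m)‖ ^ (p - 1) : ℝ) : ℂ)‖ₑ = ‖a (b m)‖ₑ ^ (p - 1) := by
        rw [← ofReal_norm, Complex.norm_real, Real.norm_of_nonneg (by positivity),
          ← ENNReal.ofReal_rpow_of_nonneg (norm_nonneg _) hpq.sub_one_pos.le, ofReal_norm]
      rw [e1]
      calc (‖a (b m)‖ₑ ^ (p - 1) * ‖lsv b a m‖ₑ) ^ q ≤ (‖a (b m)‖ₑ ^ (p - 1) * 1) ^ q := by
            gcongr
            exact lsv_norm_le b a m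
        _ = ‖a (b m)‖ₑ ^ p := by
            rw [mul_one, ← ENNReal.rpow_mul, hpq.sub_one_mul_conj]
    · simp [ENNReal.zero_rpow_of_pos hq0]
  refine (ENNReal.tsum_le_tsum h2).trans (le_of_eq ?_)
  rw [tsum_eq_sum (s := S)]
  · exact Finset.sum_congr rfl fun i hi => if_pos hi
  · intro m hm
    exact if_neg hm

theorem clark_ge_fin {J K : Type*} [Fintype J] [Fintype K] [DecidableEq J] (T : K → J → ℝ) (N : ℝ)
    (hN : 0 < N) (hT : ∀ j j', ∑ k, T k j * T k j' = if j = j' then N else 0)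
    (hT1 : ∀ k j, |T k j| ≤ 1) {p q : ℝ} (hp2 : 2 ≤ p) (hpq : 1 / p + 1 / q = 1)
    (A : J → H →L[ℂ] H) (hA : ∀ j, IsCompactOperator (A j)) {ι : J → Type*}
    (b : ∀ j, HilbertBasis (ι j) ℂ H) (S : ∀ j, Finset (ι j)) :
    ENNReal.ofReal N * (∑ j, ∑ i ∈ S j, ‖A j (b j i)‖ₑ ^ p) ^ (q / p)
      ≤ ∑ k, (trPow p (∑ j, (T k j : ℂ) • A j)) ^ (q / p) := by
  obtain ⟨hp0, hq0, hqp, hpq'⟩ := q_facts (by linarith : 1 < p) hpq
  have hc : p.HolderConjugate q := by
    rw [Real.holderConjugate_iff]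
    refine ⟨by linarith, ?_⟩
    rw [← hpq]; simp
  have hq1 : 1 < q := hc.symm.lt
  have hq2 : q ≤ 2 := by
    have h1 : 1 / p ≤ 1 / 2 := one_div_le_one_div_of_le (by norm_num) hp2
    have h2 : 1 / 2 ≤ 1 / q := by linarith
    exact (one_div_le_one_div (by norm_num) hq0).1 h2
  set B : K → H →L[ℂ] H := fun k => ∑ j, (T k j : ℂ) • A j with hB
  have hBc : ∀ k, IsCompactOperator (B k) := fun k => compact_comb _ A hA
  let W : J → H →L[ℂ] H := fun j => V (b j) (A j) p (S j)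
  have hW : ∀ j, IsCompactOperator (W j) := fun j => V_compact _ _ _ _
  let Y : K → H →L[ℂ] H := fun k => ∑ j, (T k j : ℂ) • W j
  have hY : ∀ k, IsCompactOperator (Y k) := fun k => compact_comb _ W hW
  have hYa : ∀ k e, Y k e = ∑ j, (T k j : ℂ) • ∑ i ∈ S j,
      (((‖A j (b j i)‖ ^ (p - 1) : ℝ) : ℂ) * ⟪b j i, e⟫_ℂ) • lsv (b j) (A j) i := by
    intro k e
    simp only [Y, W, sum_apply, smul_apply, V_apply]
  set s : ℝ≥0∞ := ∑ j, ∑ i ∈ S j, ‖A j (b j i)‖ₑ ^ p with hs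
  have henorm : ∀ y : H, ‖y‖ₑ ^ p = ENNReal.ofReal (‖y‖ ^ p) := fun y => by
    rw [← ofReal_norm, ENNReal.ofReal_rpow_of_nonneg (norm_nonneg _) hp0.le]
  have hsr : s = ENNReal.ofReal (∑ j, ∑ i ∈ S j, ‖A j (b j i)‖ ^ p) := by
    rw [hs, ENNReal.ofReal_sum_of_nonneg (fun _ _ => by positivity)]
    refine Finset.sum_congr rfl fun j _ => ?_
    rw [ENNReal.ofReal_sum_of_nonneg (fun _ _ => by positivity)]
    simp_rw [henorm]
  -- the trace identity
  have h1 : ∑ k, ∑ j, (T k j : ℂ) * ∑ i ∈ S j, ((‖A j (b j i)‖ ^ (p - 1) : ℝ) : ℂ) *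
      ⟪lsv (b j) (A j) i, B k (b j i)⟫_ℂ
      = ((N * ∑ j, ∑ i ∈ S j, ‖A j (b j i)‖ ^ p : ℝ) : ℂ) := by
    rw [Finset.sum_comm, Finset.mul_sum, Complex.ofReal_sum]
    refine Finset.sum_congr rfl fun j _ => ?_
    simp_rw [Finset.mul_sum]
    rw [Finset.sum_comm, Complex.ofReal_sum]
    refine Finset.sum_congr rfl fun i _ => ?_
    have e1 : ∀ k, ⟪lsv (b j) (A j) i, B k (b j i)⟫_ℂ
        = ∑ j', (T k j' : ℂ) * ⟪lsv (b j) (A j) i, A j' (b j i)⟫_ℂ := by
      intro k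
      simp only [hB, sum_apply, smul_apply, inner_sum, inner_smul_right]
    simp_rw [e1, Finset.mul_sum]
    rw [Finset.sum_comm]
    have e2 : ∀ j', ∑ k, (T k j : ℂ) * (((‖A j (b j i)‖ ^ (p - 1) : ℝ) : ℂ) *
        ((T k j' : ℂ) * ⟪lsv (b j) (A j) i, A j' (b j i)⟫_ℂ))
        = if j = j' then ((N * ‖A j (b j i)‖ ^ p : ℝ) : ℂ) else 0 := by
      intro j'
      have e3 : ∑ k, (T k j : ℂ) * (((‖A j (b j i)‖ ^ (p - 1) : ℝ) : ℂ) *
        ((T k j' : ℂ) * ⟪lsv (b j) (A j) i, A j' (b j i)⟫_ℂ))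
        = ((∑ k, T k j * T k j' : ℝ) : ℂ) * (((‖A j (b j i)‖ ^ (p - 1) : ℝ) : ℂ) *
          ⟪lsv (b j) (A j) i, A j' (b j i)⟫_ℂ) := by
        rw [Complex.ofReal_sum, Finset.sum_mul]
        refine Finset.sum_congr rfl fun k _ => ?_
        rw [Complex.ofReal_mul]
        ring
      rw [e3, hT j j']
      split_ifs with h
      · subst h
        rw [inner_lsv, ← Complex.ofReal_mul, ← Complex.ofReal_mul]
        congr 2
        rw [← Real.rpow_add_one' (norm_nonneg _) (by linarith)]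
        congr 1
        ring
      · simp
    simp_rw [e2]
    simp
  -- the Hölder inequalities
  have h2 : ENNReal.ofReal N * s ≤ ∑ k, (trPow p (B k)) ^ (1 / p) * (trPow q (Y k)) ^ (1 / q) := by
    have h3 : ‖((N * ∑ j, ∑ i ∈ S j, ‖A j (b j i)‖ ^ p : ℝ) : ℂ)‖ₑ = ENNReal.ofReal N * s := by
      rw [← ofReal_norm, Complex.norm_real, Real.norm_of_nonneg, ENNReal.ofReal_mul hN.le, hsr]
      exact mul_nonneg hN.le
        (Finset.sum_nonneg fun _ _ => Finset.sum_nonneg fun _ _ => by positivity)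
    rw [← h3, ← h1]
    refine (enorm_sum_le _ _).trans (Finset.sum_le_sum fun k _ => ?_)
    exact pair_le (T k) S (fun j i => ‖A j (b j i)‖ ^ (p - 1)) (fun j i => b j i)
      (fun j i => lsv (b j) (A j) i) (Y k) (hYa k) (hY k) (B k) (hBc k) hc
  set X : ℝ≥0∞ := ∑ k, (trPow p (B k)) ^ (q / p) with hX
  have h4 : ∑ k, (trPow p (B k)) ^ (1 / p) * (trPow q (Y k)) ^ (1 / q)
      ≤ X ^ (1 / q) * (∑ k, (trPow q (Y k)) ^ (p / q)) ^ (1 / p) := by
    refine (ENNReal.inner_le_Lp_mul_Lq Finset.univ _ _ hc.symm).trans (le_of_eq ?_)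
    simp_rw [← ENNReal.rpow_mul]
    have e1 : 1 / p * q = q / p := by ring
    have e2 : 1 / q * p = p / q := by ring
    rw [e1, e2]
  have h5 : ∑ k, (trPow q (Y k)) ^ (p / q) ≤ ENNReal.ofReal N * s ^ (p / q) := by
    refine (clark_le T N hN hT hT1 hq1 hq2 (by linarith) W hW).trans ?_
    gcongr
    refine Finset.sum_le_sum fun j _ => ?_
    exact trPow_V_le (b j) (A j) (S j) hc hq2
  have h6 : ENNReal.ofReal N * s ≤ X ^ (1 / q) * (ENNReal.ofReal N * s ^ (p / q)) ^ (1 / p) := by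
    refine h2.trans (h4.trans ?_)
    gcongr
  -- conclude
  set n : ℝ≥0∞ := ENNReal.ofReal N with hn
  have hn0 : n ≠ 0 := by simpa [hn] using hN
  have hnT : n ≠ ⊤ := ENNReal.ofReal_ne_top
  have hsT : s ≠ ⊤ := by rw [hsr]; exact ENNReal.ofReal_ne_top
  by_cases hs0 : s = 0
  · rw [hs0, ENNReal.zero_rpow_of_pos (by positivity), mul_zero]
    exact zero_le
  have h7 : (n * s) ^ q ≤ X * (n ^ (q - 1) * s) := by
    calc (n * s) ^ q ≤ (X ^ (1 / q) * (n * s ^ (p / q)) ^ (1 / p)) ^ q := by gcongr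
      _ = X * (n ^ (q - 1) * s) := by
          rw [ENNReal.mul_rpow_of_nonneg _ _ hq0.le, ← ENNReal.rpow_mul,
            one_div_mul_cancel hq0.ne', ENNReal.rpow_one, ← ENNReal.rpow_mul,
            ENNReal.mul_rpow_of_nonneg _ _ (by positivity), ← ENNReal.rpow_mul]
          have e1 : 1 / p * q = q - 1 := by rw [← hqp]; ring
          have e2 : p / q * (1 / p * q) = 1 := by field_simp
          rw [e2, ENNReal.rpow_one, e1]
  have h8 : (n * s) ^ q = (n * s ^ (q / p)) * (n ^ (q - 1) * s) := by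
    rw [ENNReal.mul_rpow_of_nonneg _ _ hq0.le, hqp]
    have e1 : n ^ q = n * n ^ (q - 1) := by
      conv_rhs => enter [1]; rw [← ENNReal.rpow_one n]
      rw [← ENNReal.rpow_add _ _ hn0 hnT]
      congr 1
      ring
    have e2 : s ^ q = s ^ (q - 1) * s := by
      conv_rhs => enter [2]; rw [← ENNReal.rpow_one s]
      rw [← ENNReal.rpow_add _ _ hs0 hsT]
      congr 1
      ring
    rw [e1, e2]
    ring
  rw [h8] at h7
  refine (ENNReal.mul_le_mul_iff_left ?_ ?_).1 h7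
  · have : n ^ (q - 1) ≠ 0 := by
      rw [Ne, ENNReal.rpow_eq_zero_iff]
      push Not
      exact ⟨fun h => absurd h hn0, fun h => absurd h hnT⟩
    exact mul_ne_zero this hs0
  · exact ENNReal.mul_ne_top (ENNReal.rpow_ne_top_of_nonneg (by linarith) hnT) hsT

/-- the Clarkson-type inequality for `p ≥ 2` -/
theorem clark_ge {J K : Type*} [Fintype J] [Fintype K] [DecidableEq J] (T : K → J → ℝ) (N : ℝ)
    (hN : 0 < N) (hT : ∀ j j', ∑ k, T k j * T k j' = if j = j' then N else 0)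
    (hT1 : ∀ k j, |T k j| ≤ 1) {p q : ℝ} (hp2 : 2 ≤ p) (hpq : 1 / p + 1 / q = 1)
    (A : J → H →L[ℂ] H) (hA : ∀ j, IsCompactOperator (A j)) :
    ENNReal.ofReal N * (∑ j, trPow p (A j)) ^ (q / p)
      ≤ ∑ k, (trPow p (∑ j, (T k j : ℂ) • A j)) ^ (q / p) := by
  classical
  obtain ⟨hp0, hq0, hqp, hpq'⟩ := q_facts (by linarith : 1 < p) hpq
  choose ι b hb using fun j => exists_singBasis (A j) (compact_star_mul (hA j))
  have h1 := clark_ge_fin T N hN hT hT1 hp2 hpq A hA b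
  have ht : Filter.Tendsto (fun S : ∀ j, Finset (ι j) =>
      ENNReal.ofReal N * (∑ j, ∑ i ∈ S j, ‖A j (b j i)‖ₑ ^ p) ^ (q / p)) Filter.atTop
      (𝓝 (ENNReal.ofReal N * (∑ j, trPow p (A j)) ^ (q / p))) := by
    refine ENNReal.Tendsto.const_mul ?_ (Or.inr ENNReal.ofReal_ne_top)
    refine (ENNReal.continuous_rpow_const.tendsto _).comp ?_
    refine tendsto_finsetSum _ fun j _ => ?_
    rw [trPow_eq (hb j) (compact_star_mul (hA j)) hp0]
    have h4 : Filter.Tendsto (fun S : ∀ j, Finset (ι j) => S j) Filter.atTop Filter.atTop :=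
      Monotone.tendsto_atTop_atTop (Function.monotone_eval j)
        (fun s => ⟨Function.update (fun _ => ∅) j s, by simp⟩)
    exact (ENNReal.summable.hasSum).comp h4
  have : (Filter.atTop : Filter (∀ j, Finset (ι j))).NeBot := Filter.atTop_neBot
  exact le_of_tendsto' ht h1

end Pool.Agent.K4H38.Clark
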