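import Mathlib
import Pool.Agent.K4H38.ClarkD
set_option autoImplicit false
set_option linter.unusedSectionVars false
open scoped ENNReal InnerProductSpace Topology
open Module ContinuousLinearMap Pool.Agent.Helper872.Sch

namespace Pool.Agent.K4H38.Clark

universe u
variable {H : Type u} [NormedAddCommGroup H] [InnerProductSpace ℂ H] [CompleteSpace H]

/-- membership in the Schatten class `S_p`: the operator is compact and `tr |a|^p` is finite -/
def InSp (p : ℝ) (a : H →L[ℂ] H) : Prop := IsCompactOperator a ∧ trPow p a ≠ ⊤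

/-- the Schatten `p`-norm `(tr |a|^p)^(1/p)` -/
noncomputable def snorm (p : ℝ) (a : H →L[ℂ] H) : ℝ := (trPow p a).toReal ^ (1 / p)

theorem InSp.add {p : ℝ} (hp : 1 ≤ p) {a c : H →L[ℂ] H} (ha : InSp p a) (hc : InSp p c) :
    InSp p (a + c) := by
  have hp0 : 0 < p := by linarith
  refine ⟨ha.1.add hc.1, ?_⟩
  have h := trPow_add_le ha.1 hc.1 hp
  intro h2
  rw [h2, ENNReal.top_rpow_of_pos (by positivity)] at h
  have h3 : (trPow p a) ^ (1 / p) + (trPow p c) ^ (1 / p) ≠ ⊤ := by
    rw [ENNReal.add_ne_top]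
    exact ⟨ENNReal.rpow_ne_top_of_nonneg (by positivity) ha.2,
      ENNReal.rpow_ne_top_of_nonneg (by positivity) hc.2⟩
  exact h3 (top_le_iff.1 h)

theorem InSp.smul {p : ℝ} (hp : 0 < p) {a : H →L[ℂ] H} (ha : InSp p a) (t : ℂ) :
    InSp p (t • a) := by
  refine ⟨ha.1.smul t, ?_⟩
  rw [trPow_smul ha.1 hp]
  exact ENNReal.mul_ne_top (ENNReal.rpow_ne_top_of_nonneg hp.le enorm_ne_top) ha.2

theorem InSp.comb {p : ℝ} (hp : 1 ≤ p) {J : Type*} [Fintype J] (t : J → ℂ) (A : J → H →L[ℂ] H)
    (hA : ∀ j, InSp p (A j)) : InSp p (∑ j, t j • A j) := by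
  classical
  have hp0 : 0 < p := by linarith
  induction (Finset.univ : Finset J) using Finset.induction_on with
  | empty =>
    rw [Finset.sum_empty]
    refine ⟨isCompactOperator_zero, ?_⟩
    rw [trPow_zero hp0]
    exact ENNReal.zero_ne_top
  | insert a s ha ih =>
    rw [Finset.sum_insert ha]
    exact ((hA a).smul hp0 (t a)).add hp ih

theorem snorm_rpow (p : ℝ) (a : H →L[ℂ] H) (q : ℝ) :
    snorm p a ^ q = (trPow p a ^ (q / p)).toReal := by
  unfold snorm
  rw [← Real.rpow_mul ENNReal.toReal_nonneg, ENNReal.toReal_rpow]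
  congr 2
  ring

/-- the matrix of the transformation `(A_j) ↦ (∑ A_j, A_j - A_k (j < k))` -/
def Tmat (n : ℕ) (k : Option (Fin n × Fin n)) (j : Fin n) : ℝ :=
  match k with
  | none => 1
  | some (a, b) => if a < b then (if j = a then 1 else 0) - (if j = b then 1 else 0) else 0

theorem Tmat_abs (n : ℕ) (k : Option (Fin n × Fin n)) (j : Fin n) : |Tmat n k j| ≤ 1 := by
  rcases k with _ | ⟨a, b⟩
  · simp [Tmat]
  · simp only [Tmat]
    split_ifs <;> simp

theorem sum_lt_left (n : ℕ) (j j' : Fin n) :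
    ∑ a : Fin n, ∑ b : Fin n, (if a < b then (if j = a then (1 : ℝ) else 0) *
      (if j' = b then 1 else 0) else 0) = if j < j' then 1 else 0 := by
  rw [Finset.sum_eq_single j]
  · rw [Finset.sum_eq_single j']
    · simp
    · intro b _ hb
      simp [hb.symm]
    · intro h; exact absurd (Finset.mem_univ _) h
  · intro a _ ha
    simp [ha.symm]
  · intro h; exact absurd (Finset.mem_univ _) h

theorem Tmat_orth (n : ℕ) (j j' : Fin n) :
    ∑ k, Tmat n k j * Tmat n k j' = if j = j' then (n : ℝ) else 0 := by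
  rw [Fintype.sum_option, Fintype.sum_prod_type]
  simp only [Tmat]
  have e1 : ∀ a b : Fin n, (if a < b then (if j = a then (1 : ℝ) else 0) - (if j = b then 1 else 0)
      else 0) * (if a < b then (if j' = a then (1 : ℝ) else 0) - (if j' = b then 1 else 0) else 0)
      = ((if a < b then (if j = a then (1 : ℝ) else 0) * (if j' = a then 1 else 0) else 0)
        + (if a < b then (if j = b then (1 : ℝ) else 0) * (if j' = b then 1 else 0) else 0))
        - (if a < b then (if j = a then (1 : ℝ) else 0) * (if j' = b then 1 else 0) else 0)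
        - (if a < b then (if j' = a then (1 : ℝ) else 0) * (if j = b then 1 else 0) else 0) := by
    intro a b
    split_ifs <;> simp_all
  simp_rw [e1, Finset.sum_sub_distrib, Finset.sum_add_distrib]
  rw [sum_lt_left, sum_lt_left]
  have e2 : ∑ a : Fin n, ∑ b : Fin n, (if a < b then (if j = a then (1 : ℝ) else 0) *
      (if j' = a then 1 else 0) else 0) = if j = j' then ((n : ℝ) - 1 - j) else 0 := by
    rw [Finset.sum_eq_single j]
    · by_cases h : j = j'
      · subst h
        simp only [if_true, mul_one]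
        rw [Finset.sum_ite, Finset.sum_const_zero, add_zero, Finset.sum_const]
        have : (Finset.univ.filter (fun b : Fin n => j < b)) = Finset.Ioi j := by
          ext b; simp
        rw [this, Fin.card_Ioi]
        have := j.2
        rw [nsmul_eq_mul, mul_one, Nat.cast_sub (by omega), Nat.cast_sub (by omega)]
        simp
      · simp [h, Ne.symm h]
    · intro a _ ha
      simp [ha.symm]
    · intro h; exact absurd (Finset.mem_univ _) h
  have e3 : ∑ a : Fin n, ∑ b : Fin n, (if a < b then (if j = b then (1 : ℝ) else 0) *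
      (if j' = b then 1 else 0) else 0) = if j = j' then (j : ℝ) else 0 := by
    rw [Finset.sum_comm, Finset.sum_eq_single j]
    · by_cases h : j = j'
      · subst h
        simp only [if_true, mul_one]
        rw [Finset.sum_ite, Finset.sum_const_zero, add_zero, Finset.sum_const]
        have : (Finset.univ.filter (fun b : Fin n => b < j)) = Finset.Iio j := by
          ext b; simp
        rw [this, Fin.card_Iio]
        simp
      · simp [h, Ne.symm h]
    · intro a _ ha
      simp [ha.symm]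
    · intro h; exact absurd (Finset.mem_univ _) h
  rw [e2, e3]
  rcases lt_trichotomy j j' with h | h | h
  · simp [h, h.ne, not_lt.2 h.le]
  · subst h
    simp
  · simp [h, h.ne', not_lt.2 h.le]

theorem Tmat_sum_none (n : ℕ) (A : Fin n → H →L[ℂ] H) :
    ∑ j, (Tmat n none j : ℂ) • A j = ∑ j, A j := by
  simp [Tmat]

theorem Tmat_sum_some (n : ℕ) (A : Fin n → H →L[ℂ] H) (a b : Fin n) :
    ∑ j, (Tmat n (some (a, b)) j : ℂ) • A j = if a < b then A a - A b else 0 := by
  simp only [Tmat]
  split_ifs with h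
  · have e : ∀ j, ((((if j = a then (1 : ℝ) else 0) - (if j = b then 1 else 0) : ℝ)) : ℂ) • A j
        = (if j = a then A j else 0) - (if j = b then A j else 0) := by
      intro j
      split_ifs <;> simp
    simp_rw [e, Finset.sum_sub_distrib]
    simp
  · simp

theorem sum_Tmat (n : ℕ) (A : Fin n → H →L[ℂ] H) (f : (H →L[ℂ] H) → ℝ≥0∞) (hf : f 0 = 0) :
    ∑ k, f (∑ j, (Tmat n k j : ℂ) • A j)
      = f (∑ j, A j) + ∑ a, ∑ b ∈ Finset.Ioi a, f (A a - A b) := by
  rw [Fintype.sum_option, Fintype.sum_prod_type, Tmat_sum_none]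
  simp_rw [Tmat_sum_some]
  congr 1
  refine Finset.sum_congr rfl fun a _ => ?_
  have e : ∀ b, f (if a < b then A a - A b else 0) = if a < b then f (A a - A b) else 0 := by
    intro b
    split_ifs
    · rfl
    · exact hf
  simp_rw [e]
  rw [← Finset.sum_filter]
  congr 1
  ext b
  simp

theorem toReal_side (n : ℕ) (A : Fin n → H →L[ℂ] H) {p q : ℝ} (hp : 1 < p)
    (hpq : 1 / p + 1 / q = 1) (hA : ∀ j, InSp p (A j)) :
    (n : ℝ) * (∑ j, snorm p (A j) ^ p) ^ (q / p)
      = (ENNReal.ofReal n * (∑ j, trPow p (A j)) ^ (q / p)).toReal ∧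
    snorm p (∑ j, A j) ^ q + ∑ j, ∑ k ∈ Finset.Ioi j, snorm p (A j - A k) ^ q
      = (∑ k, (trPow p (∑ j, (Tmat n k j : ℂ) • A j)) ^ (q / p)).toReal ∧
    (∑ k, (trPow p (∑ j, (Tmat n k j : ℂ) • A j)) ^ (q / p)) ≠ ⊤ ∧
    ENNReal.ofReal n * (∑ j, trPow p (A j)) ^ (q / p) ≠ ⊤ := by
  obtain ⟨hp0, hq0, hqp, hpq'⟩ := q_facts hp hpq
  have hqp0 : 0 < q / p := by positivity
  have hf : ∀ k, (trPow p (∑ j, (Tmat n k j : ℂ) • A j)) ^ (q / p) ≠ ⊤ := fun k =>
    ENNReal.rpow_ne_top_of_nonneg hqp0.le (InSp.comb hp.le _ A hA).2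
  have h3 : (∑ k, (trPow p (∑ j, (Tmat n k j : ℂ) • A j)) ^ (q / p)) ≠ ⊤ :=
    ENNReal.sum_ne_top.2 fun k _ => hf k
  refine ⟨?_, ?_, h3, ?_⟩
  · simp_rw [snorm_rpow p, div_self hp0.ne', ENNReal.rpow_one]
    rw [ENNReal.toReal_mul, ENNReal.toReal_ofReal (by positivity), ← ENNReal.toReal_rpow,
      ENNReal.toReal_sum (fun j _ => (hA j).2)]
  · have h4 := sum_Tmat n A (fun a => (trPow p a) ^ (q / p))
      (by rw [trPow_zero hp0, ENNReal.zero_rpow_of_pos hqp0])
    rw [h4] at h3 ⊢
    rw [ENNReal.add_ne_top] at h3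
    rw [ENNReal.toReal_add h3.1 h3.2, snorm_rpow p]
    have h5 := ENNReal.sum_ne_top.1 h3.2
    rw [ENNReal.toReal_sum h5]
    congr 1
    refine Finset.sum_congr rfl fun a ha => ?_
    rw [ENNReal.toReal_sum (ENNReal.sum_ne_top.1 (h5 a ha))]
    refine Finset.sum_congr rfl fun b _ => ?_
    rw [snorm_rpow p]
  · refine ENNReal.mul_ne_top ENNReal.ofReal_ne_top (ENNReal.rpow_ne_top_of_nonneg hqp0.le ?_)
    exact ENNReal.sum_ne_top.2 fun j _ => (hA j).2

end Pool.Agent.K4H38.Clark
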