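import Pool.Agent.K4H40.NS.Spec

set_option autoImplicit false

namespace Pool.Agent.K4H40.NS

open MvPolynomial Module

theorem span_le_ideal38 {n : ℕ} {K : Type} [Field K] (T : Set (R n K)) {x : R n K}
    (hx : x ∈ Submodule.span K T) : x ∈ Ideal.span T := by
  have h : Submodule.span K T ≤ (Ideal.span T).restrictScalars K := by
    rw [Submodule.span_le]
    intro y hy
    exact Ideal.subset_span hy
  exact h hx

theorem theta_indep38 {n k : ℕ} {K : Type} [Field K] {I : Ideal (R n K)} (s : Sys n k K I) :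
    ∀ (m : ℕ) (hm : m ≤ 2 * k + 1),
      LinearIndependent K (fun j : Fin m => s.θ (Fin.castLE hm j)) := by
  intro m
  induction m with
  | zero => intro _; exact linearIndependent_empty_type
  | succ m ih =>
    intro hm
    rw [linearIndependent_finSucc']
    refine ⟨ih (by omega), ?_⟩
    intro hmem
    set i : Fin (2 * k + 1) := Fin.castLE hm (Fin.last m) with hi
    have h1 : s.θ i ∈ Ideal.span (s.θ '' {j | j < i}) := by
      have h2 := span_le_ideal38 _ hmem
      refine Ideal.span_mono ?_ h2
      rintro _ ⟨j, rfl⟩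
      refine ⟨Fin.castLE hm j.castSucc, ?_, rfl⟩
      show Fin.castLE hm j.castSucc < i
      rw [Fin.lt_def, hi]
      simp
    have h3 : s.θ i * 1 ∈ I ⊔ Ideal.span (s.θ '' {j | j < i}) := by
      rw [mul_one]
      exact Submodule.mem_sup_right h1
    have h4 := s.regular i 1 h3
    have h5 : I ⊔ Ideal.span (s.θ '' {j | j < i}) ≤ I ⊔ Ideal.span (Set.range s.θ) :=
      sup_le_sup_left (Ideal.span_mono (Set.image_subset_range _ _)) _
    exact s.proper (h5 h4)

/-- [LIN] -/
theorem lin (hdec : StDEC) (hdim : StDIM) : StLIN := by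
  intro n k K _ I s hI hn hk hId
  have hθ : LinearIndependent K s.θ := theta_indep38 s (2 * k + 1) le_rfl
  rw [linearIndependent_finCons]
  refine ⟨hθ, ?_⟩
  intro hmem
  have hω : s.ω ∈ I ⊔ Ideal.span (Set.range s.θ) :=
    Submodule.mem_sup_right (span_le_ideal38 _ hmem)
  have hall : ∀ a ∈ hs n K k, a ∈ s.J := by
    intro a ha
    refine s.lefschetz a ha ?_
    exact Ideal.mul_mem_right _ _ hω
  obtain ⟨l, rfl⟩ := Nat.exists_eq_add_of_le' hk
  have h1 : s.Jd (l + 1) = hs n K (l + 1) := by
    unfold Sys.Jd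
    refine inf_eq_right.2 ?_
    intro a ha
    exact hall a ha
  have h2 : s.Th l = hs n K (l + 1) := by
    have := hdec s hI l
    rw [hId, bot_sup_eq, h1] at this
    exact this.symm
  have h3 := hdim s.θ s.θ_lin hθ (by omega) l
  have h4 : finrank K (Submodule.span K {p | ∃ i, ∃ f ∈ hs n K l, p = s.θ i * f}) =
      finrank K (hs n K (l + 1)) := by
    rw [← h2]
    rfl
  rw [h4] at h3
  have h5 : 0 < (n - (2 * (l + 1) + 1) + l).choose (l + 1) := Nat.choose_pos (by omega)
  omega

end Pool.Agent.K4H40.NS
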