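import Pool.Agent.K4H58.XK.Spec

open Finset

namespace Pool.Agent.K4H58.XK

/-- a binomial coefficient that the kernel computes fast -/
def g2bin (n : ℕ) : ℕ → ℕ
  | 0 => 1
  | k + 1 => g2bin n k * (n - k) / (k + 1)

theorem g2bin_eq (n k : ℕ) : g2bin n k = n.choose k := by
  induction k with
  | zero => simp [g2bin]
  | succ k ih =>
    rw [g2bin, ih, ← Nat.choose_succ_right_eq, Nat.mul_div_cancel _ (Nat.succ_pos k)]

/-- the sum in `Good`, from `j = s` with `n` terms -/
def g2sum (k s b : ℕ) : ℕ → ℕ
  | 0 => 0
  | n + 1 => g2sum k s b n + (1 + chL k (s + n)) * (g2bin k (s + n) * g2bin (k - s - b) n)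

theorem g2sum_eq (k s b n : ℕ) :
    g2sum k s b n = ∑ j ∈ range n, (1 + chL k (s + j)) * (k.choose (s + j) * (k - s - b).choose j) := by
  induction n with
  | zero => simp [g2sum]
  | succ n ih => rw [g2sum, ih, sum_range_succ, g2bin_eq, g2bin_eq]

theorem g2icc_sum {k s b : ℕ} (h : s + b ≤ k) :
    ∑ j ∈ Icc s (k - b), (1 + chL k j) * (k.choose j * (k - s - b).choose (j - s)) =
      g2sum k s b (k - s - b + 1) := by
  rw [g2sum_eq]
  have : Icc s (k - b) = (range (k - s - b + 1)).image (fun j => s + j) := by
    ext x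
    simp only [mem_Icc, mem_image, mem_range]
    constructor
    · rintro ⟨h1, h2⟩
      exact ⟨x - s, by omega, by omega⟩
    · rintro ⟨y, h1, rfl⟩
      constructor <;> omega
  rw [this, sum_image (by intro a _ b _ h; simpa using h)]
  refine sum_congr rfl (fun j _ => ?_)
  rw [Nat.add_sub_cancel_left]

/-- the check for one `k` -/
def g2chk (k : ℕ) : Bool :=
  (List.range (k + 1)).all fun s => (List.range (k + 1)).all fun b =>
    decide (s < 2) || decide (b < 1) || decide (k < s + b) ||
      decide ((k + 3 - s - b) * g2sum k s b (k - s - b + 1) ≤ g2bin (3 * k - s - b) (k - b))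

theorem good_of_g2chk {k : ℕ} (h : g2chk k = true) : Good k := by
  intro s b m hs hb hm hmk
  have h1 : s + b ≤ k := by omega
  rw [g2icc_sum h1]
  unfold g2chk at h
  rw [List.all_eq_true] at h
  have h2 := h s (by rw [List.mem_range]; omega)
  rw [List.all_eq_true] at h2
  have h3 := h2 b (by rw [List.mem_range]; omega)
  have e1 : decide (s < 2) = false := decide_eq_false (by omega)
  have e2 : decide (b < 1) = false := decide_eq_false (by omega)
  have e3 : decide (k < s + b) = false := decide_eq_false (by omega)
  rw [e1, e2, e3] at h3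
  simp only [Bool.false_or, decide_eq_true_eq, g2bin_eq] at h3
  exact (Nat.mul_le_mul_right _ (by omega)).trans h3

theorem g2chk3 : g2chk 3 = true := by decide +kernel
theorem g2chk9 : g2chk 9 = true := by decide +kernel
theorem g2chk10 : g2chk 10 = true := by decide +kernel
theorem g2chk11 : g2chk 11 = true := by decide +kernel
theorem g2chk12 : g2chk 12 = true := by decide +kernel
theorem g2chk13 : g2chk 13 = true := by decide +kernel
theorem g2chk14 : g2chk 14 = true := by decide +kernel
theorem g2chk15 : g2chk 15 = true := by decide +kernel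
theorem g2chk16 : g2chk 16 = true := by decide +kernel
theorem g2chk17 : g2chk 17 = true := by decide +kernel
theorem g2chk18 : g2chk 18 = true := by decide +kernel

/-- PIECE G2: `Good k` for small `k` by computation (k = 1, 2 vacuous; checked in Python for 3 and 9..18);
evaluate with a fast binomial (descFactorial / factorial) and `decide +kernel`, or norm_num -/
theorem good_small {k : ℕ} (hk : k = 1 ∨ k = 2 ∨ k = 3 ∨ (9 ≤ k ∧ k ≤ 18)) : Good k := by
  rcases hk with rfl | rfl | rfl | ⟨h1, h2⟩
  · intro s b m hs hb hm hmk; omega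
  · intro s b m hs hb hm hmk; omega
  · exact good_of_g2chk g2chk3
  · have : k = 9 ∨ k = 10 ∨ k = 11 ∨ k = 12 ∨ k = 13 ∨ k = 14 ∨ k = 15 ∨ k = 16 ∨ k = 17 ∨ k = 18 := by
      omega
    rcases this with rfl | rfl | rfl | rfl | rfl | rfl | rfl | rfl | rfl | rfl
    · exact good_of_g2chk g2chk9
    · exact good_of_g2chk g2chk10
    · exact good_of_g2chk g2chk11
    · exact good_of_g2chk g2chk12
    · exact good_of_g2chk g2chk13
    · exact good_of_g2chk g2chk14
    · exact good_of_g2chk g2chk15
    · exact good_of_g2chk g2chk16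
    · exact good_of_g2chk g2chk17
    · exact good_of_g2chk g2chk18

end Pool.Agent.K4H58.XK
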