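import Pool.Agent.K4H38.XKG2

open Finset

namespace Pool.Agent.K4H58.XK

/-- how often (0, 1 or 2 times) the second pointwise inequality is used at the cuts of size `j` -/
def qq (k j : ℕ) : ℕ :=
  if j ≤ 1 then 2 else if k ≤ j + 1 then 0 else if k ≤ 6 then 1 else
    if 2 * j < k then 0 else if 2 * j = k then 1 else 2

theorem qq_le (k j : ℕ) : qq k j ≤ 2 := by
  unfold qq; split_ifs <;> omega

/-- the weight of the lower cherries at the cuts of size `j` -/
def uL (k j : ℕ) : ℕ := 2 + (k - 1) * qq k j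

/-- the weight of the upper cherries at the cuts of size `j` -/
def uU (k j : ℕ) : ℕ := 2 + (k - 1) * (2 - qq k j)

/-- the sum for a lower cherry -/
def SL (k s b : ℕ) : ℕ := ∑ j ∈ Icc s (k - b), uL k j * (k.choose j * (k - s - b).choose (j - s))

/-- the sum for an upper cherry -/
def SU (k s b : ℕ) : ℕ := ∑ j ∈ Icc b (k - s), uU k j * (k.choose j * (k - s - b).choose (j - b))

/-- `∑ j ∈ Icc s (s + n - 1), u j * (k.choose j * e.choose (j - s))`, computed fast -/
def g3sum (u : ℕ → ℕ) (k e s : ℕ) : ℕ → ℕ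
  | 0 => 0
  | n + 1 => g3sum u k e s n + u (s + n) * (g2bin k (s + n) * g2bin e n)

theorem g3sum_eq (u : ℕ → ℕ) (k e s n : ℕ) :
    g3sum u k e s n = ∑ j ∈ range n, u (s + j) * (k.choose (s + j) * e.choose j) := by
  induction n with
  | zero => simp [g3sum]
  | succ n ih => rw [g3sum, ih, sum_range_succ, g2bin_eq, g2bin_eq]

theorem g3icc_sum (u : ℕ → ℕ) {k s b e : ℕ} (h : s + b ≤ k) :
    ∑ j ∈ Icc s (k - b), u j * (k.choose j * e.choose (j - s)) =
      g3sum u k e s (k - s - b + 1) := by
  rw [g3sum_eq]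
  have : Icc s (k - b) = (range (k - s - b + 1)).image (fun j => s + j) := by
    ext x
    simp only [mem_Icc, mem_image, mem_range]
    constructor
    · rintro ⟨h1, h2⟩
      exact ⟨x - s, by omega, by omega⟩
    · rintro ⟨y, h1, rfl⟩
      constructor <;> omega
  rw [this, sum_image (by intro a _ b _ h; simpa using h)]
  refine sum_congr rfl (fun j _ => ?_)
  rw [Nat.add_sub_cancel_left]

theorem SL_eq {k s b : ℕ} (h : s + b ≤ k) : SL k s b = g3sum (uL k) k (k - s - b) s (k - s - b + 1) :=
  g3icc_sum (uL k) h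

theorem SU_eq {k s b : ℕ} (h : s + b ≤ k) : SU k s b = g3sum (uU k) k (k - s - b) b (k - s - b + 1) := by
  unfold SU
  rw [g3icc_sum (uU k) (s := b) (b := s) (by omega)]
  congr 1
  omega

/-- the check of one triple -/
def g3one (f : ℕ → ℕ → ℕ → ℕ) (k a b c : ℕ) : Bool :=
  decide ((k + 3 - a - b - c) *
    (f k (a + b) c * g2bin (3 * k - a - b - c) (k - a) * g2bin (3 * k - a - b - c) (k - b) +
     f k (b + c) a * g2bin (3 * k - a - b - c) (k - c) * g2bin (3 * k - a - b - c) (k - b) +
     f k (c + a) b * g2bin (3 * k - a - b - c) (k - c) * g2bin (3 * k - a - b - c) (k - a)) ≤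
    6 * g2bin (3 * k - a - b - c) (k - c) * g2bin (3 * k - a - b - c) (k - a) *
      g2bin (3 * k - a - b - c) (k - b))

/-- the check of one `k` -/
def g3chk (f : ℕ → ℕ → ℕ → ℕ) (k : ℕ) : Bool :=
  (List.range k).all fun a => (List.range k).all fun b => (List.range k).all fun c =>
    decide (a < 1) || decide (b < 1) || decide (c < 1) || decide (k < a + b + c) || g3one f k a b c

/-- the fast form of `SL` -/
def fL (k s b : ℕ) : ℕ := g3sum (uL k) k (k - s - b) s (k - s - b + 1)

/-- the fast form of `SU` -/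
def fU (k s b : ℕ) : ℕ := g3sum (uU k) k (k - s - b) b (k - s - b + 1)

theorem g3_of_chk {f F : ℕ → ℕ → ℕ → ℕ} {k : ℕ} (hf : ∀ s b, s + b ≤ k → F k s b = f k s b)
    (h : g3chk f k = true) {a b c m : ℕ} (ha : 1 ≤ a) (hb : 1 ≤ b) (hc : 1 ≤ c) (hm : 3 ≤ m)
    (hmk : m + a + b + c ≤ k + 3) :
    m * (F k (a + b) c * (3 * k - a - b - c).choose (k - a) * (3 * k - a - b - c).choose (k - b) +
      F k (b + c) a * (3 * k - a - b - c).choose (k - c) * (3 * k - a - b - c).choose (k - b) +
      F k (c + a) b * (3 * k - a - b - c).choose (k - c) * (3 * k - a - b - c).choose (k - a)) ≤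
    6 * (3 * k - a - b - c).choose (k - c) * (3 * k - a - b - c).choose (k - a) *
      (3 * k - a - b - c).choose (k - b) := by
  rw [hf _ _ (by omega), hf _ _ (by omega), hf _ _ (by omega)]
  unfold g3chk at h
  rw [List.all_eq_true] at h
  have h2 := h a (by rw [List.mem_range]; omega)
  rw [List.all_eq_true] at h2
  have h3 := h2 b (by rw [List.mem_range]; omega)
  rw [List.all_eq_true] at h3
  have h4 := h3 c (by rw [List.mem_range]; omega)
  have e1 : decide (a < 1) = false := decide_eq_false (by omega)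
  have e2 : decide (b < 1) = false := decide_eq_false (by omega)
  have e3 : decide (c < 1) = false := decide_eq_false (by omega)
  have e4 : decide (k < a + b + c) = false := decide_eq_false (by omega)
  rw [e1, e2, e3, e4] at h4
  simp only [Bool.false_or, g3one, decide_eq_true_eq, g2bin_eq] at h4
  exact (Nat.mul_le_mul_right _ (by omega)).trans h4

theorem chkL4 : g3chk fL 4 = true := by decide +kernel
theorem chkL5 : g3chk fL 5 = true := by decide +kernel
theorem chkL6 : g3chk fL 6 = true := by decide +kernel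
theorem chkL7 : g3chk fL 7 = true := by decide +kernel
theorem chkL8 : g3chk fL 8 = true := by decide +kernel
theorem chkU4 : g3chk fU 4 = true := by decide +kernel
theorem chkU5 : g3chk fU 5 = true := by decide +kernel
theorem chkU6 : g3chk fU 6 = true := by decide +kernel
theorem chkU7 : g3chk fU 7 = true := by decide +kernel
theorem chkU8 : g3chk fU 8 = true := by decide +kernel

/-- the numerical inequality for the lower cherries, `4 ≤ k ≤ 8` -/
theorem num_L {k : ℕ} (hk : 4 ≤ k ∧ k ≤ 8) {a b c m : ℕ} (ha : 1 ≤ a) (hb : 1 ≤ b) (hc : 1 ≤ c)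
    (hm : 3 ≤ m) (hmk : m + a + b + c ≤ k + 3) :
    m * (SL k (a + b) c * (3 * k - a - b - c).choose (k - a) * (3 * k - a - b - c).choose (k - b) +
      SL k (b + c) a * (3 * k - a - b - c).choose (k - c) * (3 * k - a - b - c).choose (k - b) +
      SL k (c + a) b * (3 * k - a - b - c).choose (k - c) * (3 * k - a - b - c).choose (k - a)) ≤
    6 * (3 * k - a - b - c).choose (k - c) * (3 * k - a - b - c).choose (k - a) *
      (3 * k - a - b - c).choose (k - b) := by
  have h : k = 4 ∨ k = 5 ∨ k = 6 ∨ k = 7 ∨ k = 8 := by omega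
  rcases h with rfl | rfl | rfl | rfl | rfl
  · exact g3_of_chk (f := fL) (F := SL) (fun s b h => SL_eq h) chkL4 ha hb hc hm hmk
  · exact g3_of_chk (f := fL) (F := SL) (fun s b h => SL_eq h) chkL5 ha hb hc hm hmk
  · exact g3_of_chk (f := fL) (F := SL) (fun s b h => SL_eq h) chkL6 ha hb hc hm hmk
  · exact g3_of_chk (f := fL) (F := SL) (fun s b h => SL_eq h) chkL7 ha hb hc hm hmk
  · exact g3_of_chk (f := fL) (F := SL) (fun s b h => SL_eq h) chkL8 ha hb hc hm hmk

/-- the numerical inequality for the upper cherries, `4 ≤ k ≤ 8` -/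
theorem num_U {k : ℕ} (hk : 4 ≤ k ∧ k ≤ 8) {a b c m : ℕ} (ha : 1 ≤ a) (hb : 1 ≤ b) (hc : 1 ≤ c)
    (hm : 3 ≤ m) (hmk : m + a + b + c ≤ k + 3) :
    m * (SU k (a + b) c * (3 * k - a - b - c).choose (k - a) * (3 * k - a - b - c).choose (k - b) +
      SU k (b + c) a * (3 * k - a - b - c).choose (k - c) * (3 * k - a - b - c).choose (k - b) +
      SU k (c + a) b * (3 * k - a - b - c).choose (k - c) * (3 * k - a - b - c).choose (k - a)) ≤
    6 * (3 * k - a - b - c).choose (k - c) * (3 * k - a - b - c).choose (k - a) *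
      (3 * k - a - b - c).choose (k - b) := by
  have h : k = 4 ∨ k = 5 ∨ k = 6 ∨ k = 7 ∨ k = 8 := by omega
  rcases h with rfl | rfl | rfl | rfl | rfl
  · exact g3_of_chk (f := fU) (F := SU) (fun s b h => SU_eq h) chkU4 ha hb hc hm hmk
  · exact g3_of_chk (f := fU) (F := SU) (fun s b h => SU_eq h) chkU5 ha hb hc hm hmk
  · exact g3_of_chk (f := fU) (F := SU) (fun s b h => SU_eq h) chkU6 ha hb hc hm hmk
  · exact g3_of_chk (f := fU) (F := SU) (fun s b h => SU_eq h) chkU7 ha hb hc hm hmk
  · exact g3_of_chk (f := fU) (F := SU) (fun s b h => SU_eq h) chkU8 ha hb hc hm hmk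

end Pool.Agent.K4H58.XK
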